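import Mathlib
import Pool.Agent.H.MP_0335f8_al.helper41.Chev

/-!
# The groups of type `F₄` and `²E₆` inside the Chevalley group of type `E₆` (definitions)
-/

namespace H41Chev

/-- the Cartan matrix of type `E₆`, the nodes numbered in such a way that the symmetry of the
diagram exchanges the nodes `0, 1` and the nodes `2, 3` and fixes `4` and `5` -/
def CartanE₆ : Matrix (Fin 6) (Fin 6) ℤ :=
  CartanMatrix.E₆.submatrix ![0, 5, 2, 4, 3, 1] ![0, 5, 2, 4, 3, 1]

/-- the symmetry of the diagram, as a map of the root lattice -/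
def tau (v : Fin 6 → ℤ) : Fin 6 → ℤ := fun i => v (![1, 0, 3, 2, 4, 5] i)

/-- the twisted root elements: `exp (t ad e_r)` if the root `r` is fixed by the symmetry and `t`
is fixed by `φ`, and `exp (t ad e_r) exp (φ(t) ad e_s)` if the symmetry maps `r` to `s ≠ r` -/
def twistedRootSet (A : Matrix (Fin 6) (Fin 6) ℤ) {K : Type*} [Field K] (φ : K ≃+* K) :
    Set (GLM A K) :=
  {g | ∃ (r : Root A) (t : K), tau r.1 = r.1 ∧ φ t = t ∧ ∀ x : LieMod A K, g x = rootFun A r t x} ∪
  {g | ∃ (r s : Root A) (t : K), tau r.1 = s.1 ∧ s.1 ≠ r.1 ∧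
    ∀ x : LieMod A K, g x = rootFun A r t (rootFun A s (φ t) x)}

/-- the group generated by the twisted root elements -/
def TwistedGroup (A : Matrix (Fin 6) (Fin 6) ℤ) {K : Type*} [Field K] (φ : K ≃+* K) :
    Subgroup (GLM A K) := Subgroup.closure (twistedRootSet A φ)

end H41Chev
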