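import Mathlib
import Pool.Agent.H.MP_0335f8_al.helper41t.TDefs
import Pool.Agent.H.MP_0335f8_al.helper41.Odd
import Pool.Agent.H.MP_0335f8_al.helper41.Ex

/-!
# The symmetric numbering of `E₆` and the symmetry of the root lattice
-/

namespace H41Chev

/-- the matrix `CartanE₆`, explicitly -/
def B6 : Matrix (Fin 6) (Fin 6) ℤ :=
  !![2, 0, -1, 0, 0, 0; 0, 2, 0, -1, 0, 0; -1, 0, 2, 0, -1, 0; 0, -1, 0, 2, -1, 0;
    0, 0, -1, -1, 2, -1; 0, 0, 0, 0, -1, 2]

theorem cartan_eq : CartanE₆ = B6 := by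
  have h : ∀ i j : Fin 6, (CartanE₆ i j : ℤ) = B6 i j := by decide +kernel
  ext i j; exact h i j

theorem ip6 (u v : Fin 6 → ℤ) : ip B6 u v =
    2 * u 0 * v 0 + 2 * u 1 * v 1 + 2 * u 2 * v 2 + 2 * u 3 * v 3 + 2 * u 4 * v 4 + 2 * u 5 * v 5
    - u 0 * v 2 - u 2 * v 0 - u 1 * v 3 - u 3 * v 1 - u 2 * v 4 - u 4 * v 2 - u 3 * v 4 - u 4 * v 3
    - u 4 * v 5 - u 5 * v 4 := by
  simp only [ip, B6, Fin.sum_univ_six, Matrix.of_apply, Matrix.cons_val]
  ring

theorem hf6 (u v : Fin 6 → ℤ) : hf B6 u v =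
    u 0 * v 0 + u 1 * v 1 + u 2 * v 2 + u 3 * v 3 + u 4 * v 4 + u 5 * v 5
    - u 0 * v 2 - u 1 * v 3 - u 2 * v 4 - u 3 * v 4 - u 4 * v 5 := by
  have h : ∀ i j : Fin 6, (if i < j then B6 i j else if i = j then 1 else 0 : ℤ) =
    (!![1, 0, -1, 0, 0, 0; 0, 1, 0, -1, 0, 0; 0, 0, 1, 0, -1, 0; 0, 0, 0, 1, -1, 0;
      0, 0, 0, 0, 1, -1; 0, 0, 0, 0, 0, 1] : Matrix (Fin 6) (Fin 6) ℤ) i j := by decide +kernel
  have e : hf B6 u v = ∑ i, ∑ j, u i *
    (!![1, 0, -1, 0, 0, 0; 0, 1, 0, -1, 0, 0; 0, 0, 1, 0, -1, 0; 0, 0, 0, 1, -1, 0;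
      0, 0, 0, 0, 1, -1; 0, 0, 0, 0, 0, 1] : Matrix (Fin 6) (Fin 6) ℤ) i j * v j :=
    Finset.sum_congr rfl fun i _ => Finset.sum_congr rfl fun j _ => by rw [h]
  rw [e]
  simp only [Fin.sum_univ_six, Matrix.of_apply, Matrix.cons_val]
  ring

theorem good6t : Good B6 where
  symm := fun i j => by fin_cases i <;> fin_cases j <;> rfl
  diag := fun i => by fin_cases i <;> rfl
  pos v hv := by
    by_contra h
    apply hv
    have e : 6 * ip B6 v v = 3 * (2 * v 0 - v 2) ^ 2 + (3 * v 2 - 2 * v 4) ^ 2 +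
        3 * (2 * v 5 - v 4) ^ 2 + 3 * (2 * v 1 - v 3) ^ 2 + (3 * v 3 - 2 * v 4) ^ 2 + v 4 ^ 2 := by
      rw [ip6]; ring
    have h0 := sq_nonneg (2 * v 0 - v 2)
    have h1 := sq_nonneg (3 * v 2 - 2 * v 4)
    have h2 := sq_nonneg (2 * v 5 - v 4)
    have h3 := sq_nonneg (2 * v 1 - v 3)
    have h4 := sq_nonneg (3 * v 3 - 2 * v 4)
    have h7 := sq_nonneg (v 4)
    have g0 := sqz (a := 2 * v 0 - v 2) (by linarith)
    have g1 := sqz (a := 3 * v 2 - 2 * v 4) (by linarith)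
    have g2 := sqz (a := 2 * v 5 - v 4) (by linarith)
    have g3 := sqz (a := 2 * v 1 - v 3) (by linarith)
    have g4 := sqz (a := 3 * v 3 - 2 * v 4) (by linarith)
    have g7 := sqz (a := v 4) (by linarith)
    ext i
    fin_cases i
    · show v 0 = 0; omega
    · show v 1 = 0; omega
    · show v 2 = 0; omega
    · show v 3 = 0; omega
    · show v 4 = 0; omega
    · show v 5 = 0; omega

/-! ### the symmetry -/

@[simp] theorem flip_0 (v : Fin 6 → ℤ) : tau v 0 = v 1 := rfl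
@[simp] theorem flip_1 (v : Fin 6 → ℤ) : tau v 1 = v 0 := rfl
@[simp] theorem flip_2 (v : Fin 6 → ℤ) : tau v 2 = v 3 := rfl
@[simp] theorem flip_3 (v : Fin 6 → ℤ) : tau v 3 = v 2 := rfl
@[simp] theorem flip_4 (v : Fin 6 → ℤ) : tau v 4 = v 4 := rfl
@[simp] theorem flip_5 (v : Fin 6 → ℤ) : tau v 5 = v 5 := rfl

theorem ext6 {u v : Fin 6 → ℤ} (h0 : u 0 = v 0) (h1 : u 1 = v 1) (h2 : u 2 = v 2) (h3 : u 3 = v 3)
    (h4 : u 4 = v 4) (h5 : u 5 = v 5) : u = v := by
  ext i; fin_cases i <;> assumption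

theorem flip_add (u v : Fin 6 → ℤ) : tau (u + v) = tau u + tau v := rfl

theorem flip_neg (u : Fin 6 → ℤ) : tau (-u) = - tau u := rfl

theorem flip_sub (u v : Fin 6 → ℤ) : tau (u - v) = tau u - tau v := rfl

theorem flip_smul (c : ℤ) (u : Fin 6 → ℤ) : tau (c • u) = c • tau u := rfl

theorem flip_flip (u : Fin 6 → ℤ) : tau (tau u) = u := by
  apply ext6 <;> rfl

theorem ip_flip (u v : Fin 6 → ℤ) : ip B6 (tau u) (tau v) = ip B6 u v := by
  rw [ip6, ip6]; simp only [flip_0, flip_1, flip_2, flip_3, flip_4, flip_5]; ring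

theorem ip_flip' (u v : Fin 6 → ℤ) : ip B6 (tau u) v = ip B6 u (tau v) := by
  rw [← ip_flip u (tau v), flip_flip]

theorem hf_flip (u v : Fin 6 → ℤ) : hf B6 (tau u) (tau v) = hf B6 u v := by
  rw [hf6, hf6]; simp only [flip_0, flip_1, flip_2, flip_3, flip_4, flip_5]; ring

theorem eps_flip (u v : Fin 6 → ℤ) : eps B6 (tau u) (tau v) = eps B6 u v := by
  unfold eps; rw [hf_flip]

theorem rf_flip (r v : Fin 6 → ℤ) : rf B6 (tau r) (tau v) = tau (rf B6 r v) := by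
  unfold rf; rw [ip_flip]; rfl

theorem eta_flip (r v : Fin 6 → ℤ) : eta B6 (tau r) (tau v) = eta B6 r v := by
  unfold eta; rw [ip_flip, hf_flip]

/-- a root which is not fixed by the symmetry is orthogonal to its image -/
theorem orth_flip {v : Fin 6 → ℤ} (hv : ip B6 v v = 2) (h : tau v ≠ v) :
    ip B6 v (tau v) = 0 := by
  have c := cs good6t hv (by rw [ip_flip, hv] : ip B6 (tau v) (tau v) = 2)
  have e : ip B6 v v - ip B6 v (tau v) =
      2 * ((v 0 - v 1) ^ 2 - (v 0 - v 1) * (v 2 - v 3) + (v 2 - v 3) ^ 2) := by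
    rw [ip6, ip6]; simp only [flip_0, flip_1, flip_2, flip_3, flip_4, flip_5]; ring
  have h2 : ip B6 v (tau v) ≠ 2 := fun h' => h (c.2.2.1 h').symm
  have h3 : ip B6 v (tau v) ≠ -2 := by
    intro h'
    have h4 := c.2.2.2 h'
    have e0 : v 0 = - v 1 := congrFun h4 0
    have e2 : v 2 = - v 3 := congrFun h4 2
    have e4 : v 4 = - v 4 := congrFun h4 4
    have e5 : v 5 = - v 5 := congrFun h4 5
    have f4 : v 4 = 0 := by omega
    have f5 : v 5 = 0 := by omega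
    rw [ip6, e0, e2, f4, f5] at hv
    have : 4 * (v 1 * v 1 + v 3 * v 3 - v 1 * v 3) = 2 := by linarith
    omega
  omega

/-- no root is mapped to its negative -/
theorem flip_ne_neg {v : Fin 6 → ℤ} (hv : ip B6 v v = 2) : tau v ≠ -v := by
  intro h
  by_cases h' : tau v = v
  · rw [h'] at h
    have := congrArg (ip B6 v) h
    rw [ip_neg_right, hv] at this; omega
  · have := orth_flip hv h'
    rw [h, ip_neg_right, hv] at this; omega

/-! ### the twisted root elements -/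

variable {K : Type*} [Field K]

/-- the twisted root element of a root which is not fixed -/
def Yt (φ : K ≃+* K) (v : Fin 6 → ℤ) (t : K) : GLM B6 K := X good6t v t * X good6t (tau v) (φ t)

/-- the twisted group, by its generators -/
theorem tw_closure (φ : K ≃+* K) : TwistedGroup B6 φ = Subgroup.closure
    {g | (∃ v t, tau v = v ∧ φ t = t ∧ g = X good6t v t) ∨ (∃ v t, tau v ≠ v ∧ g = Yt φ v t)} := by
  apply le_antisymm
  · refine (Subgroup.closure_le _).2 ?_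
    rintro g (⟨r, t, h1, h2, hg⟩ | ⟨r, s, t, h1, h2, hg⟩)
    · refine Subgroup.subset_closure (Or.inl ⟨r.1, t, h1, h2, ?_⟩)
      refine gl_ext fun x => ?_
      rw [X_ap good6t r.2]
      exact hg x
    · refine Subgroup.subset_closure (Or.inr ⟨r.1, t, by rw [h1]; exact h2, ?_⟩)
      refine gl_ext fun x => ?_
      have hs : ip B6 (tau r.1) (tau r.1) = 2 := by rw [ip_flip]; exact r.2
      show g x = X good6t r.1 t (X good6t (tau r.1) (φ t) x)
      rw [X_ap good6t r.2, X_ap good6t hs, hg x]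
      have : s = (⟨tau r.1, hs⟩ : Root B6) := Subtype.ext h1.symm
      rw [this]; rfl
  · refine (Subgroup.closure_le _).2 ?_
    rintro g (⟨v, t, h1, h2, rfl⟩ | ⟨v, t, h1, rfl⟩)
    · by_cases hv : ip B6 v v = 2
      · exact Subgroup.subset_closure (Or.inl ⟨⟨v, hv⟩, t, h1, h2, fun x => X_ap good6t hv t x⟩)
      · rw [X_not good6t hv]; exact Subgroup.one_mem _
    · by_cases hv : ip B6 v v = 2
      · have hs : ip B6 (tau v) (tau v) = 2 := by rw [ip_flip]; exact hv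
        refine Subgroup.subset_closure (Or.inr ⟨⟨v, hv⟩, ⟨tau v, hs⟩, t, rfl, h1, fun x => ?_⟩)
        show X good6t v t (X good6t (tau v) (φ t) x) = _
        rw [X_ap good6t hv, X_ap good6t hs]; rfl
      · unfold Yt
        rw [X_not good6t hv, X_not good6t (by rwa [ip_flip]), one_mul]; exact Subgroup.one_mem _

theorem X_tw {φ : K ≃+* K} {v : Fin 6 → ℤ} {t : K} (hv : tau v = v) (ht : φ t = t) :
    X good6t v t ∈ TwistedGroup B6 φ := by
  rw [tw_closure]; exact Subgroup.subset_closure (Or.inl ⟨v, t, hv, ht, rfl⟩)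

theorem Y_tw {φ : K ≃+* K} {v : Fin 6 → ℤ} (hv : tau v ≠ v) (t : K) :
    Yt φ v t ∈ TwistedGroup B6 φ := by
  rw [tw_closure]; exact Subgroup.subset_closure (Or.inr ⟨v, t, hv, rfl⟩)

end H41Chev
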