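import Mathlib
import Pool.Agent.H.MP_0335f8_al.helper41.Chev

/-!
# The exceptional groups of Lie type of Lie rank at least four (definitions)

A group of Lie type with simply laced root lattice is given by a Cartan matrix `A`, a symmetry
`p` of its diagram and an automorphism `φ` of the field, both of order one or two.
-/

namespace H41Chev

/-- the twisted root elements: `exp (t ad e_r)` if the root `r` is fixed by the symmetry `p` of
the diagram and `t` is fixed by `φ`, and `exp (t ad e_r) exp (φ(t) ad e_s)` if the symmetry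
maps the root `r` to the root `s ≠ r` -/
def steinbergSet {n : ℕ} (A : Matrix (Fin n) (Fin n) ℤ) (p : Fin n → Fin n) {K : Type*} [Field K]
    (φ : K ≃+* K) : Set (GLM A K) :=
  {g | ∃ (r : Root A) (t : K), r.1 ∘ p = r.1 ∧ φ t = t ∧ ∀ x : LieMod A K, g x = rootFun A r t x} ∪
  {g | ∃ (r s : Root A) (t : K), r.1 ∘ p = s.1 ∧ s.1 ≠ r.1 ∧
    ∀ x : LieMod A K, g x = rootFun A r t (rootFun A s (φ t) x)}

/-- the group generated by the twisted root elements: the Chevalley group of type `A` over `K`
if `p` and `φ` are trivial -/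
def SteinbergGroup {n : ℕ} (A : Matrix (Fin n) (Fin n) ℤ) (p : Fin n → Fin n) {K : Type*} [Field K]
    (φ : K ≃+* K) : Subgroup (GLM A K) := Subgroup.closure (steinbergSet A p φ)

/-- the Cartan matrix of type `E₆`, the nodes numbered in such a way that the symmetry of the
diagram exchanges the nodes `0, 1` and the nodes `2, 3` and fixes `4` and `5` -/
def CartanE₆' : Matrix (Fin 6) (Fin 6) ℤ :=
  CartanMatrix.E₆.submatrix ![0, 5, 2, 4, 3, 1] ![0, 5, 2, 4, 3, 1]

/-- the exceptional groups of Lie type over `K` of Lie rank at least four: `E₆`, `E₇`, `E₈`, `F₄`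
and the twisted groups of type `E₆` -/
inductive Exceptional (K : Type*) [Field K] :
    (n : ℕ) → Matrix (Fin n) (Fin n) ℤ → (Fin n → Fin n) → (K ≃+* K) → Prop
  | E₆ : Exceptional K 6 CartanMatrix.E₆ id (RingEquiv.refl K)
  | E₇ : Exceptional K 7 CartanMatrix.E₇ id (RingEquiv.refl K)
  | E₈ : Exceptional K 8 CartanMatrix.E₈ id (RingEquiv.refl K)
  | F₄ : Exceptional K 6 CartanE₆' ![1, 0, 3, 2, 4, 5] (RingEquiv.refl K)
  | twistedE₆ (φ : K ≃+* K) : (∀ x, φ (φ x) = x) → φ ≠ RingEquiv.refl K →
      Exceptional K 6 CartanE₆' ![1, 0, 3, 2, 4, 5] φ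

end H41Chev
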