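import Mathlib
import Pool.Agent.H.MP_0335f8_al.helper41t.TBase

/-!
# Relations between the twisted root elements, and subgroups containing them
-/

namespace H41Chev

variable {K : Type*} [Field K] {φ : K ≃+* K}

theorem Y_add {v : Fin 6 → ℤ} (h : ip B6 v (tau v) = 0) (s t : K) :
    Yt φ v s * Yt φ v t = Yt φ v (s + t) := by
  unfold Yt
  have c := X_comm good6t (u := tau v) (v := v) (by rw [ip_flip', h]) (φ s) t
  calc X good6t v s * X good6t (tau v) (φ s) * (X good6t v t * X good6t (tau v) (φ t))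
      = X good6t v s * (X good6t (tau v) (φ s) * X good6t v t) * X good6t (tau v) (φ t) := by group
    _ = (X good6t v s * X good6t v t) * (X good6t (tau v) (φ s) * X good6t (tau v) (φ t)) := by
        rw [c]; group
    _ = _ := by rw [X_add, X_add, map_add]

theorem Y_zero (v : Fin 6 → ℤ) : (Yt φ v 0 : GLM B6 K) = 1 := by
  unfold Yt; rw [map_zero, X_zero, X_zero, one_mul]

theorem Y_inv {v : Fin 6 → ℤ} (h : ip B6 v (tau v) = 0) (t : K) :
    (Yt φ v t)⁻¹ = Yt φ v (-t) := by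
  rw [inv_eq_iff_mul_eq_one, Y_add h, add_neg_cancel, Y_zero]

theorem Y_flip (hφ : ∀ x, φ (φ x) = x) {v : Fin 6 → ℤ} (h : ip B6 v (tau v) = 0) (t : K) :
    Yt φ (tau v) (φ t) = Yt φ v t := by
  unfold Yt
  rw [flip_flip, hφ t]
  exact X_comm good6t (by rw [ip_flip', h]) _ _

theorem Y_com_short {v w : Fin 6 → ℤ} (hv : ip B6 v v = 2) (hw : ip B6 w w = 2)
    (ov : ip B6 v (tau v) = 0) (ow : ip B6 w (tau w) = 0) (h : ip B6 v w = -1)
    (h0 : ip B6 v (tau w) = 0) (s t : K) :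
    Yt φ v s * Yt φ w t = Yt φ (v + w) ((eps B6 v w : K) * s * t) * Yt φ w t * Yt φ v s := by
  have hv' : ip B6 (tau v) (tau v) = 2 := by rw [ip_flip, hv]
  have hw' : ip B6 (tau w) (tau w) = 2 := by rw [ip_flip, hw]
  have h' : ip B6 (tau v) (tau w) = -1 := by rw [ip_flip, h]
  have h0' : ip B6 (tau v) w = 0 := by rw [ip_flip', h0]
  have k0 : ip B6 w (tau v) = 0 := by rw [ip_comm good6t, h0']
  have c1 := X_comm good6t (u := tau v) (v := w) (by rw [h0']) (φ s) t
  have c2 := X_com good6t hv hw h s t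
  have c3 := X_com good6t hv' hw' h' (φ s) (φ t)
  rw [eps_flip] at c3
  have c4 := X_comm good6t (u := v) (v := tau v + tau w) (by rw [ip_add_right, ov, h0]; norm_num)
    s ((eps B6 v w : K) * φ s * φ t)
  have c5 := X_comm good6t (u := w) (v := tau v + tau w)
    (by rw [ip_add_right, k0, ow]; norm_num) t ((eps B6 v w : K) * φ s * φ t)
  have c6 := X_comm good6t (u := v) (v := tau w) (by rw [h0]) s (φ t)
  unfold Yt
  rw [flip_add, map_mul, map_mul, map_intCast]
  set q : Fin 6 → ℤ := v + w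
  set q' : Fin 6 → ℤ := tau v + tau w
  calc X good6t v s * X good6t (tau v) (φ s) * (X good6t w t * X good6t (tau w) (φ t))
      = X good6t v s * (X good6t (tau v) (φ s) * X good6t w t) * X good6t (tau w) (φ t) := by group
    _ = (X good6t v s * X good6t w t) * (X good6t (tau v) (φ s) * X good6t (tau w) (φ t)) := by
        rw [c1]; group
    _ = X good6t q ((eps B6 v w : K) * s * t) * X good6t w t *
        (X good6t v s * X good6t q' ((eps B6 v w : K) * φ s * φ t)) * X good6t (tau w) (φ t) *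
          X good6t (tau v) (φ s) := by rw [c2, c3]; group
    _ = X good6t q ((eps B6 v w : K) * s * t) *
        (X good6t w t * X good6t q' ((eps B6 v w : K) * φ s * φ t)) *
        (X good6t v s * X good6t (tau w) (φ t)) * X good6t (tau v) (φ s) := by rw [c4]; group
    _ = _ := by rw [c5, c6]; group

theorem Y_com_long {v w : Fin 6 → ℤ} (hv : ip B6 v v = 2) (hw : ip B6 w w = 2)
    (h : ip B6 v w = -1) (h0 : ip B6 v (tau w) = 1) (hq : tau (v + w) = v + w) (s t : K) :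
    Yt φ v s * Yt φ w t =
      X good6t (v + w) ((eps B6 v w : K) * (s * t + φ (s * t))) * Yt φ w t * Yt φ v s := by
  have hv' : ip B6 (tau v) (tau v) = 2 := by rw [ip_flip, hv]
  have hw' : ip B6 (tau w) (tau w) = 2 := by rw [ip_flip, hw]
  have h' : ip B6 (tau v) (tau w) = -1 := by rw [ip_flip, h]
  have h0' : ip B6 (tau v) w = 1 := by rw [ip_flip', h0]
  have c1 := X_comm good6t (u := tau v) (v := w) (by rw [h0']; norm_num) (φ s) t
  have c2 := X_com good6t hv hw h s t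
  have c3 := X_com good6t hv' hw' h' (φ s) (φ t)
  rw [eps_flip, ← flip_add, hq] at c3
  have c4 := X_comm good6t (u := v) (v := v + w) (by rw [ip_add_right, hv, h]; norm_num)
    s ((eps B6 v w : K) * φ s * φ t)
  have c5 := X_comm good6t (u := w) (v := v + w)
    (by rw [ip_add_right, hw, ip_comm good6t w v, h]; norm_num) t ((eps B6 v w : K) * φ s * φ t)
  have c6 := X_comm good6t (u := v) (v := tau w) (by rw [h0]; norm_num) s (φ t)
  have c7 : X good6t (v + w) ((eps B6 v w : K) * (s * t + φ (s * t))) =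
      X good6t (v + w) ((eps B6 v w : K) * s * t) * X good6t (v + w) ((eps B6 v w : K) * φ s * φ t) := by
    rw [X_add, map_mul]; congr 1; ring
  unfold Yt
  rw [c7]
  set q : Fin 6 → ℤ := v + w
  calc X good6t v s * X good6t (tau v) (φ s) * (X good6t w t * X good6t (tau w) (φ t))
      = X good6t v s * (X good6t (tau v) (φ s) * X good6t w t) * X good6t (tau w) (φ t) := by group
    _ = (X good6t v s * X good6t w t) * (X good6t (tau v) (φ s) * X good6t (tau w) (φ t)) := by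
        rw [c1]; group
    _ = X good6t q ((eps B6 v w : K) * s * t) * X good6t w t *
        (X good6t v s * X good6t q ((eps B6 v w : K) * φ s * φ t)) * X good6t (tau w) (φ t) *
          X good6t (tau v) (φ s) := by rw [c2, c3]; group
    _ = X good6t q ((eps B6 v w : K) * s * t) *
        (X good6t w t * X good6t q ((eps B6 v w : K) * φ s * φ t)) *
        (X good6t v s * X good6t (tau w) (φ t)) * X good6t (tau v) (φ s) := by rw [c4]; group
    _ = _ := by rw [c5, c6]; group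

theorem Z_com_Y {z w : Fin 6 → ℤ} (hz : ip B6 z z = 2) (hw : ip B6 w w = 2)
    (ow : ip B6 w (tau w) = 0) (fz : tau z = z) (h : ip B6 z w = -1) {s : K} (hs : φ s = s)
    (t : K) : X good6t z s * Yt φ w t = Yt φ (z + w) ((eps B6 z w : K) * s * t) *
      X good6t (w + (z + tau w)) ((eps B6 w (z + tau w) : K) * t * ((eps B6 z w : K) * s * φ t)) *
      Yt φ w t * X good6t z s := by
  have hw' : ip B6 (tau w) (tau w) = 2 := by rw [ip_flip, hw]
  have h' : ip B6 z (tau w) = -1 := by rw [← ip_flip', fz, h]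
  have hq' : ip B6 (z + tau w) (z + tau w) = 2 := root_add good6t hz hw' h'
  have hwq : ip B6 w (z + tau w) = -1 := by rw [ip_add_right, ip_comm good6t w z, h, ow]; norm_num
  have e1 : eps B6 z (tau w) = eps B6 z w := by
    rw [← eps_flip z w, fz]
  have c1 := X_com good6t hz hw h s t
  have c2 := X_com good6t hz hw' h' s (φ t)
  rw [e1] at c2
  have c3 := X_com good6t hw hq' hwq t ((eps B6 z w : K) * s * φ t)
  have c4 := X_comm good6t (u := w + (z + tau w)) (v := z + tau w)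
    (by rw [ip_add_left, hwq, hq']; norm_num)
    ((eps B6 w (z + tau w) : K) * t * ((eps B6 z w : K) * s * φ t)) ((eps B6 z w : K) * s * φ t)
  unfold Yt
  rw [flip_add, fz, map_mul, map_mul, map_intCast, hs]
  generalize (eps B6 w (z + tau w) : K) * t * ((eps B6 z w : K) * s * φ t) = p at c3 c4 ⊢
  calc X good6t z s * (X good6t w t * X good6t (tau w) (φ t))
      = (X good6t z s * X good6t w t) * X good6t (tau w) (φ t) := by group
    _ = X good6t (z + w) ((eps B6 z w : K) * s * t) * X good6t w t *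
        (X good6t z s * X good6t (tau w) (φ t)) := by rw [c1]; group
    _ = X good6t (z + w) ((eps B6 z w : K) * s * t) *
        (X good6t w t * X good6t (z + tau w) ((eps B6 z w : K) * s * φ t)) *
        X good6t (tau w) (φ t) * X good6t z s := by rw [c2]; group
    _ = X good6t (z + w) ((eps B6 z w : K) * s * t) *
        (X good6t (w + (z + tau w)) p * X good6t (z + tau w) ((eps B6 z w : K) * s * φ t)) *
        X good6t w t * X good6t (tau w) (φ t) * X good6t z s := by rw [c3]; group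
    _ = _ := by rw [c4]; group

/-! ### membership -/

/-- a root not fixed by the symmetry -/
def Sh (v : Fin 6 → ℤ) : Prop := ip B6 v v = 2 ∧ ip B6 v (tau v) = 0

instance (v : Fin 6 → ℤ) : Decidable (Sh v) := by unfold Sh; infer_instance

/-- a root fixed by the symmetry -/
def Lo (v : Fin 6 → ℤ) : Prop := ip B6 v v = 2 ∧ tau v = v

instance (v : Fin 6 → ℤ) : Decidable (Lo v) := by unfold Lo; infer_instance

theorem Sh_neg {v : Fin 6 → ℤ} (h : Sh v) : Sh (-v) := by
  refine ⟨root_neg h.1, ?_⟩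
  rw [flip_neg, ip_neg_left, ip_neg_right, neg_neg, h.2]

theorem Sh_flip {v : Fin 6 → ℤ} (h : Sh v) : Sh (tau v) := by
  refine ⟨by rw [ip_flip, h.1], ?_⟩
  rw [ip_flip, h.2]

theorem Lo_neg {v : Fin 6 → ℤ} (h : Lo v) : Lo (-v) :=
  ⟨root_neg h.1, by rw [flip_neg, h.2]⟩

theorem Sh_ne {v : Fin 6 → ℤ} (h : Sh v) : tau v ≠ v := by
  intro h'
  have := h.2
  rw [h', h.1] at this; omega

theorem Sh_or_Lo {v : Fin 6 → ℤ} (h : ip B6 v v = 2) : Sh v ∨ Lo v := by
  by_cases h' : tau v = v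
  · exact Or.inr ⟨h, h'⟩
  · exact Or.inl ⟨h, orth_flip h h'⟩

/-- short sum: `v + w` is not fixed -/
def S1 (v w s : Fin 6 → ℤ) : Prop :=
  Sh v ∧ Sh w ∧ ip B6 v w = -1 ∧ ip B6 v (tau w) = 0 ∧ v + w = s

instance (v w s : Fin 6 → ℤ) : Decidable (S1 v w s) := by unfold S1; infer_instance

theorem S1_Sh {v w s : Fin 6 → ℤ} (h : S1 v w s) : Sh s := by
  obtain ⟨hv, hw, h1, h2, rfl⟩ := h
  refine ⟨root_add good6t hv.1 hw.1 h1, ?_⟩
  rw [flip_add, ip_add_left, ip_add_right, ip_add_right, hv.2, h2, hw.2, ip_comm good6t w,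
    ip_flip', h2]
  norm_num

/-- the twisted root element with parameter `m` lies in `L` -/
def SS (φ : K ≃+* K) (L : Subgroup (GLM B6 K)) (v : Fin 6 → ℤ) (m : K) : Prop := Yt φ v m ∈ L

/-- the whole twisted root subgroup lies in `L`, root not fixed -/
def FS (φ : K ≃+* K) (L : Subgroup (GLM B6 K)) (v : Fin 6 → ℤ) : Prop := ∀ t : K, Yt φ v t ∈ L

/-- the whole twisted root subgroup lies in `L`, fixed root -/
def FL (φ : K ≃+* K) (L : Subgroup (GLM B6 K)) (v : Fin 6 → ℤ) : Prop :=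
  ∀ t : K, φ t = t → X good6t v t ∈ L

variable {L : Subgroup (GLM B6 K)}

theorem SS_sign {v : Fin 6 → ℤ} (hv : Sh v) {k : ℤ} (hk : k * k = 1) {t : K}
    (h : SS φ L v ((k : K) * t)) : SS φ L v t := by
  rcases pm_of_sq hk with rfl | rfl
  · simpa using h
  · have := L.inv_mem h
    rw [Y_inv hv.2] at this
    simpa [SS] using this

theorem SS_sum {v w s : Fin 6 → ℤ} {a b : K} (h1 : SS φ L v a) (h2 : SS φ L w b)
    (e : S1 v w s) : SS φ L s (a * b) := by
  have hs := S1_Sh e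
  obtain ⟨hv, hw, e1, e2, rfl⟩ := e
  refine SS_sign hs (eps_sq (A := B6) v w) ?_
  have := L.mul_mem (L.mul_mem (L.mul_mem h1 h2) (L.inv_mem h1)) (L.inv_mem h2)
  rw [Y_com_short hv.1 hw.1 hv.2 hw.2 e1 e2] at this
  have e3 : Yt φ (v + w) ((eps B6 v w : K) * a * b) * Yt φ w b * Yt φ v a * (Yt φ v a)⁻¹ *
      (Yt φ w b)⁻¹ = Yt φ (v + w) ((eps B6 v w : K) * a * b) := by group
  rw [e3, mul_assoc] at this
  exact this

theorem SS_step {v d : Fin 6 → ℤ} (hv : Sh v) (hd : Sh d) (h : ip B6 v d = -1)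
    (h0 : ip B6 v (tau d) = 0) {m a b : K} (h1 : SS φ L d a) (h2 : SS φ L (-d) b)
    (h3 : SS φ L v m) : SS φ L v (m * (a * b)) := by
  have e1 : S1 v d (v + d) := ⟨hv, hd, h, h0, rfl⟩
  have h4 := SS_sum h3 h1 e1
  have e2 : S1 (v + d) (-d) v := by
    refine ⟨S1_Sh e1, Sh_neg hd, ?_, ?_, by abel⟩
    · rw [ip_neg_right, ip_add_left, h, hd.1]; norm_num
    · rw [flip_neg, ip_neg_right, ip_add_left, h0, hd.2]; norm_num
  have := SS_sum h4 h2 e2
  rwa [mul_assoc] at this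

/-- the parameters of the twisted root elements in `L` form an additive group -/
def parY (φ : K ≃+* K) (L : Subgroup (GLM B6 K)) (v : Fin 6 → ℤ) (hv : Sh v) : AddSubgroup K where
  carrier := {t | Yt φ v t ∈ L}
  add_mem' {a b} ha hb := by
    show Yt φ v (a + b) ∈ L
    rw [← Y_add hv.2]; exact L.mul_mem ha hb
  zero_mem' := by show Yt φ v 0 ∈ L; rw [Y_zero]; exact L.one_mem
  neg_mem' {a} ha := by
    show Yt φ v (-a) ∈ L
    rw [← Y_inv hv.2]; exact L.inv_mem ha

/-- the loop rule -/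
theorem FS_loop {v d d' : Fin 6 → ℤ} {m a b : K} (hm : m ≠ 0)
    (hs : AddSubgroup.closure (Set.range fun i : ℕ => (a * b) ^ i) = ⊤)
    (h3 : SS φ L v m) (h1 : SS φ L d a) (h2 : SS φ L d' b)
    (e : Sh v ∧ Sh d ∧ ip B6 v d = -1 ∧ ip B6 v (tau d) = 0 ∧ -d = d') : FS φ L v := by
  obtain ⟨hv, hd, e1, e2, rfl⟩ := e
  have key : ∀ i : ℕ, SS φ L v (m * (a * b) ^ i) := by
    intro i
    induction i with
    | zero => rw [pow_zero, mul_one]; exact h3
    | succ i ih =>
      have := SS_step hv hd e1 e2 h1 h2 ih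
      rwa [mul_assoc, ← pow_succ] at this
  have h4 : AddSubgroup.closure (Set.range fun i : ℕ => (a * b) ^ i) ≤
      (parY φ L v hv).comap (AddMonoidHom.mulLeft m) := by
    rw [AddSubgroup.closure_le]
    rintro _ ⟨i, rfl⟩
    exact key i
  rw [hs] at h4
  intro t
  have := h4 (AddSubgroup.mem_top (t / m))
  have h5 : Yt φ v (m * (t / m)) ∈ L := this
  rwa [mul_div_cancel₀ _ hm] at h5

theorem FS_sum {v w s : Fin 6 → ℤ} {m : K} (hm : m ≠ 0) (h1 : FS φ L v) (h2 : SS φ L w m)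
    (e : S1 v w s) : FS φ L s := by
  intro t
  have := SS_sum (h1 (t / m)) h2 e
  rwa [div_mul_cancel₀ _ hm] at this

theorem FS_flip (hφ : ∀ x, φ (φ x) = x) {v : Fin 6 → ℤ} (h : FS φ L v) (hv : Sh v) :
    FS φ L (tau v) := by
  intro t
  have := h (φ t)
  rwa [← Y_flip hφ hv.2, hφ] at this

theorem SS_flip (hφ : ∀ x, φ (φ x) = x) {v w : Fin 6 → ℤ} {m : K} (h : SS φ L v m)
    (e : Sh v ∧ tau v = w) : SS φ L w (φ m) := by
  obtain ⟨hv, rfl⟩ := e
  unfold SS at *
  rwa [Y_flip hφ hv.2]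

/-- long sum of two roots which are not fixed -/
def S2 (v w s : Fin 6 → ℤ) : Prop :=
  ip B6 v v = 2 ∧ ip B6 w w = 2 ∧ ip B6 v w = -1 ∧ ip B6 v (tau w) = 1 ∧ v + w = s ∧ tau s = s

instance (v w s : Fin 6 → ℤ) : Decidable (S2 v w s) := by unfold S2; infer_instance

theorem FL_of_FS (h2 : (2 : K) ≠ 0) {v w s : Fin 6 → ℤ} {m : K} (hm : m ≠ 0) (h1 : FS φ L v)
    (h3 : SS φ L w m) (e : S2 v w s) : FL φ L s := by
  obtain ⟨hv, hw, e1, e2, rfl, e4⟩ := e
  intro t ht
  have hE : (eps B6 v w : K) * (eps B6 v w : K) = 1 := sq_cast (eps_sq v w)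
  have h4 : Yt φ v ((eps B6 v w : K) * t / 2 / m) ∈ L := h1 _
  have := L.mul_mem (L.mul_mem (L.mul_mem h4 h3) (L.inv_mem h4)) (L.inv_mem h3)
  rw [Y_com_long hv hw e1 e2 e4] at this
  have e5 : ∀ x y z : GLM B6 K, x * y * z * z⁻¹ * y⁻¹ = x := fun x y z => by group
  rw [e5] at this
  have e6 : (eps B6 v w : K) * ((eps B6 v w : K) * t / 2 / m * m + φ ((eps B6 v w : K) * t / 2 / m * m))
      = t := by
    rw [div_mul_cancel₀ _ hm, map_div₀, map_mul, map_intCast, ht, map_ofNat]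
    field_simp
    linear_combination (2 * t) * hE
  rwa [e6] at this

theorem FL_sum {z w s : Fin 6 → ℤ} (h1 : FL φ L z) (h2 : FL φ L w) (e : Sm B6 z w s) :
    FL φ L s := by
  obtain ⟨hz, hw, e1, rfl⟩ := e
  intro t ht
  have := com_X good6t hz hw e1 (h1 t ht) (h2 1 (map_one φ))
  rwa [mul_one] at this

/-! ### conjugation by words -/

/-- the word is compatible with the symmetry -/
def Cf (w : Wd 6) : Prop :=
  wok B6 w ∧ (∀ j, wv B6 w (tau (Pi.single j 1)) = tau (wv B6 w (Pi.single j 1))) ∧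
  ∀ j, ws B6 w (tau (Pi.single j 1)) = ws B6 w (Pi.single j 1)

instance (w : Wd 6) : Decidable (Cf w) := by unfold Cf; infer_instance

theorem Cf_all {w : Wd 6} (h : Cf w) (v : Fin 6 → ℤ) :
    wv B6 w (tau v) = tau (wv B6 w v) ∧ ws B6 w (tau v) = ws B6 w v := by
  refine lat_ind (P := fun v => wv B6 w (tau v) = tau (wv B6 w v) ∧
    ws B6 w (tau v) = ws B6 w v) ?_ ?_ ?_ ?_ v
  · have : tau 0 = 0 := rfl
    rw [this, wv_zero]; exact ⟨rfl, rfl⟩
  · rintro u v ⟨a1, a2⟩ ⟨b1, b2⟩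
    refine ⟨by rw [flip_add, wv_add, wv_add, a1, b1, flip_add], ?_⟩
    rw [flip_add, ws_add good6t h.1, ws_add good6t h.1, a1, b1, a2, b2, eps_flip, eps_flip]
  · rintro v ⟨a1, a2⟩
    exact ⟨by rw [flip_neg, wv_neg, wv_neg, a1, flip_neg], by rw [flip_neg, ws_neg, ws_neg, a2]⟩
  · exact fun j => ⟨h.2.1 j, h.2.2 j⟩

theorem NN_Y {w : Wd 6} (h : Cf w) (v : Fin 6 → ℤ) (t : K) :
    NN good6t w * Yt φ v t = Yt φ (wv B6 w v) ((ws B6 w v : K) * t) * NN good6t w := by
  obtain ⟨h1, h2⟩ := Cf_all h v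
  unfold Yt
  rw [← mul_assoc, NN_X good6t h.1, mul_assoc, NN_X good6t h.1, h1, h2, map_mul, map_intCast,
    mul_assoc]

theorem Sh_wv {w : Wd 6} (h : Cf w) {v : Fin 6 → ℤ} (hv : Sh v) : Sh (wv B6 w v) := by
  refine ⟨by rw [ip_wv good6t h.1, hv.1], ?_⟩
  rw [← (Cf_all h v).1, ip_wv good6t h.1, hv.2]

theorem Lo_wv {w : Wd 6} (h : Cf w) {v : Fin 6 → ℤ} (hv : Lo v) : Lo (wv B6 w v) := by
  refine ⟨by rw [ip_wv good6t h.1, hv.1], ?_⟩
  rw [← (Cf_all h v).1, hv.2]

theorem SS_conj {w : Wd 6} (h : Cf w) (hL : NN good6t w ∈ L) {v v' : Fin 6 → ℤ} {m : K}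
    (h1 : SS φ L v m) (e : Sh v ∧ wv B6 w v = v') : SS φ L v' m := by
  obtain ⟨hv, rfl⟩ := e
  refine SS_sign (Sh_wv h hv) (ws_sq (A := B6) w v) ?_
  have := L.mul_mem (L.mul_mem hL h1) (L.inv_mem hL)
  rwa [NN_Y h, mul_assoc, mul_inv_cancel, mul_one] at this

theorem FS_conj {w : Wd 6} (h : Cf w) (hL : NN good6t w ∈ L) {v v' : Fin 6 → ℤ}
    (h1 : FS φ L v) (e : Sh v ∧ wv B6 w v = v') : FS φ L v' :=
  fun t => SS_conj h hL (h1 t) e

theorem FL_conj {w : Wd 6} (h : Cf w) (hL : NN good6t w ∈ L) {v v' : Fin 6 → ℤ}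
    (h1 : FL φ L v) (e : wv B6 w v = v') : FL φ L v' :=
  fun t ht => e ▸ conj_X good6t h.1 hL (h1 t ht)

theorem FS_eq {v v' : Fin 6 → ℤ} (h : FS φ L v) (e : v = v') : FS φ L v' := e ▸ h

theorem FL_eq {v v' : Fin 6 → ℤ} (h : FL φ L v) (e : v = v') : FL φ L v' := e ▸ h

end H41Chev
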