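import Mathlib
import Pool.Agent.H.MP_0335f8_al.helper41t.TRule

/-!
# Elements of the twisted group, generation by the simple root subgroups
-/

namespace H41Chev

variable {K : Type*} [Field K] {φ : K ≃+* K}

/-! ### twisted words -/

/-- the roots of the list together with their images -/
def ex (l : List (Fin 6 → ℤ)) : List (Fin 6 → ℤ) :=
  l.flatMap fun r => if tau r = r then [r] else [r, tau r]

theorem ex_nil : ex [] = [] := rfl

theorem ex_cons (r : Fin 6 → ℤ) (l : List (Fin 6 → ℤ)) :
    ex (r :: l) = (if tau r = r then [r] else [r, tau r]) ++ ex l := by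
  unfold ex; rw [List.flatMap_cons]

theorem NN_tw (hφ : ∀ x, φ (φ x) = x) {L : Subgroup (GLM B6 K)} {r : Fin 6 → ℤ}
    (h1 : tau r = r → X good6t r 1 ∈ L ∧ X good6t (-r) 1 ∈ L)
    (h2 : tau r ≠ r → Yt φ r 1 ∈ L ∧ Yt φ (-r) 1 ∈ L) (hr : ip B6 r r = 2) :
    (NN good6t ((if tau r = r then [r] else [r, tau r]).map (Prod.mk true)) : GLM B6 K) ∈ L := by
  by_cases h : tau r = r
  · rw [if_pos h]
    show nn good6t r * 1 ∈ L
    rw [mul_one]
    obtain ⟨a, b⟩ := h1 h
    exact L.mul_mem (L.mul_mem a b) a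
  · rw [if_neg h]
    show nn good6t r * (nn good6t (tau r) * 1) ∈ L
    rw [mul_one]
    obtain ⟨a, b⟩ := h2 h
    have o := orth_flip hr h
    have e : (nn good6t r * nn good6t (tau r) : GLM B6 K) = Yt φ r 1 * Yt φ (-r) 1 * Yt φ r 1 := by
      unfold nn Yt
      rw [map_one, flip_neg]
      have c1 := X_comm (K := K) good6t (u := tau r) (v := r) (by rw [ip_flip', o]) 1 1
      have c2 := X_comm (K := K) good6t (u := tau r) (v := -r)
        (by rw [ip_neg_right, ip_flip', o]; norm_num) 1 1
      have c3 := X_comm (K := K) good6t (u := -tau r) (v := r)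
        (by rw [ip_neg_left, ip_flip', o]; norm_num) 1 1
      symm
      calc (X good6t r 1 * X good6t (tau r) 1 * (X good6t (-r) 1 * X good6t (-tau r) 1) *
            (X good6t r 1 * X good6t (tau r) 1) : GLM B6 K)
          = X good6t r 1 * (X good6t (tau r) 1 * X good6t (-r) 1) *
            (X good6t (-tau r) 1 * X good6t r 1) * X good6t (tau r) 1 := by group
        _ = X good6t r 1 * X good6t (-r) 1 * (X good6t (tau r) 1 * X good6t r 1) *
            X good6t (-tau r) 1 * X good6t (tau r) 1 := by rw [c2, c3]; group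
        _ = _ := by rw [c1]; group
    rw [e]
    exact L.mul_mem (L.mul_mem a b) a

theorem NNe_mem (hφ : ∀ x, φ (φ x) = x) {l : List (Fin 6 → ℤ)} (hl : ∀ r ∈ l, ip B6 r r = 2) :
    (NN good6t ((ex l).map (Prod.mk true)) : GLM B6 K) ∈ TwistedGroup B6 φ := by
  induction l with
  | nil => exact Subgroup.one_mem _
  | cons r l ih =>
    rw [ex_cons, List.map_append, NN_append]
    refine Subgroup.mul_mem _ ?_ (ih fun s hs => hl s (by simp [hs]))
    refine NN_tw hφ (fun h => ⟨X_tw h (map_one φ), X_tw (by rw [flip_neg, h]) (map_one φ)⟩)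
      (fun h => ⟨Y_tw h 1, Y_tw ?_ 1⟩) (hl r (by simp))
    rw [flip_neg]; exact fun h' => h (neg_inj.1 h')

theorem hh_tw (hφ : ∀ x, φ (φ x) = x) {v : Fin 6 → ℤ} (hv : tau v = v) :
    hh B6 K v ∈ TwistedGroup B6 φ := by
  have sr := fun j => single_root good6t j
  have e0 : (Pi.single 0 1 : Fin 6 → ℤ) ≠ tau (Pi.single 0 1) := by decide
  have m4 : hh B6 K (Pi.single 4 1) ∈ TwistedGroup B6 φ := by
    rw [← nn_sq good6t (sr 4)]
    have := NNe_mem (K := K) hφ (l := [Pi.single 4 1]) (by simpa using sr 4)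
    have e : ex [(Pi.single 4 1 : Fin 6 → ℤ)] = [Pi.single 4 1] := by decide
    rw [e] at this
    have h : nn good6t (Pi.single 4 1) ∈ TwistedGroup B6 φ := by
      have h' : (NN good6t ([(Pi.single 4 1 : Fin 6 → ℤ)].map (Prod.mk true)) : GLM B6 K) =
        nn good6t (Pi.single 4 1) := mul_one _
      rwa [h'] at this
    exact Subgroup.mul_mem _ h h
  have m5 : hh B6 K (Pi.single 5 1) ∈ TwistedGroup B6 φ := by
    rw [← nn_sq good6t (sr 5)]
    have := NNe_mem (K := K) hφ (l := [Pi.single 5 1]) (by simpa using sr 5)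
    have e : ex [(Pi.single 5 1 : Fin 6 → ℤ)] = [Pi.single 5 1] := by decide
    rw [e] at this
    have h : nn good6t (Pi.single 5 1) ∈ TwistedGroup B6 φ := by
      have h' : (NN good6t ([(Pi.single 5 1 : Fin 6 → ℤ)].map (Prod.mk true)) : GLM B6 K) =
        nn good6t (Pi.single 5 1) := mul_one _
      rwa [h'] at this
    exact Subgroup.mul_mem _ h h
  have mp : ∀ i j : Fin 6, ex [(Pi.single i 1 : Fin 6 → ℤ)] = [Pi.single i 1, Pi.single j 1] →
      ip B6 (Pi.single i 1) (Pi.single j 1) = 0 →
      hh B6 K (Pi.single i 1 + Pi.single j 1) ∈ TwistedGroup B6 φ := by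
    intro i j h1 h2
    have := NNe_mem (K := K) hφ (l := [Pi.single i 1]) (by simpa using sr i)
    rw [h1] at this
    have h' : (NN good6t ([(Pi.single i 1 : Fin 6 → ℤ), Pi.single j 1].map (Prod.mk true)) :
        GLM B6 K) = nn good6t (Pi.single i 1) * nn good6t (Pi.single j 1) := by
      show nn good6t (Pi.single i 1) * (nn good6t (Pi.single j 1) * 1) = _
      rw [mul_one]
    rw [h'] at this
    have c : (nn good6t (Pi.single i 1) * nn good6t (Pi.single j 1) : GLM B6 K) =
        nn good6t (Pi.single j 1) * nn good6t (Pi.single i 1) := by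
      have k1 := fun t : K => X_comm (K := K) good6t (u := Pi.single i 1) (v := Pi.single j 1)
        (by rw [h2]) 1 t
      have r1 : rf B6 (Pi.single i 1) (Pi.single j 1) = Pi.single j 1 := by
        unfold rf; rw [h2, zero_smul, sub_zero]
      have r2 : rf B6 (Pi.single i 1) (-Pi.single j 1) = -Pi.single j 1 := by rw [rf_neg, r1]
      have s1 : eta B6 (Pi.single i 1) (Pi.single j 1) = 1 := by unfold eta; rw [h2, zero_mul]; rfl
      have s2 : eta B6 (Pi.single i 1) (-Pi.single j 1) = 1 := by rw [eta_neg, s1]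
      have t1 := nn_X (K := K) good6t (sr i) (Pi.single j 1) 1
      have t2 := nn_X (K := K) good6t (sr i) (-Pi.single j 1) 1
      rw [r1, s1, Int.cast_one, one_mul] at t1
      rw [r2, s2, Int.cast_one, one_mul] at t2
      have e : (nn good6t (Pi.single j 1) : GLM B6 K) = X good6t (Pi.single j 1) 1 *
        X good6t (-Pi.single j 1) 1 * X good6t (Pi.single j 1) 1 := rfl
      generalize (nn good6t (Pi.single i 1) : GLM B6 K) = a at *
      rw [e]
      calc a * (X good6t (Pi.single j 1) 1 * X good6t (-Pi.single j 1) 1 * X good6t (Pi.single j 1) 1)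
          = (a * X good6t (Pi.single j 1) 1) * X good6t (-Pi.single j 1) 1 *
            X good6t (Pi.single j 1) 1 := by group
        _ = X good6t (Pi.single j 1) 1 * (a * X good6t (-Pi.single j 1) 1) *
            X good6t (Pi.single j 1) 1 := by rw [t1]; group
        _ = X good6t (Pi.single j 1) 1 * X good6t (-Pi.single j 1) 1 *
            (a * X good6t (Pi.single j 1) 1) := by rw [t2]; group
        _ = _ := by rw [t1]; group
    rw [hh_add, ← nn_sq good6t (sr i), ← nn_sq good6t (sr j)]
    have e2 : (nn good6t (Pi.single i 1) * nn good6t (Pi.single i 1) *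
        (nn good6t (Pi.single j 1) * nn good6t (Pi.single j 1)) : GLM B6 K) =
        nn good6t (Pi.single i 1) * nn good6t (Pi.single j 1) *
        (nn good6t (Pi.single i 1) * nn good6t (Pi.single j 1)) := by
      generalize (nn good6t (Pi.single i 1) : GLM B6 K) = a at *
      generalize (nn good6t (Pi.single j 1) : GLM B6 K) = b at *
      calc a * a * (b * b) = a * (a * b) * b := by group
        _ = a * (b * a) * b := by rw [c]
        _ = _ := by group
    rw [e2]
    exact Subgroup.mul_mem _ this this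
  have m01 := mp 0 1 (by decide) (by decide)
  have m23 := mp 2 3 (by decide) (by decide)
  have hz : ∀ (w : Fin 6 → ℤ), hh B6 K w ∈ TwistedGroup B6 φ → ∀ c : ℤ,
      hh B6 K (c • w) ∈ TwistedGroup B6 φ := by
    intro w hw c
    have h1 : ∀ k : ℕ, hh B6 K (k • w) ∈ TwistedGroup B6 φ := by
      intro k
      induction k with
      | zero => rw [zero_smul, hh_zero]; exact Subgroup.one_mem _
      | succ k ih => rw [succ_nsmul, hh_add]; exact Subgroup.mul_mem _ ih hw
    have h2 : ∀ w : Fin 6 → ℤ, hh B6 K (-w) = hh B6 K w := fun w => by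
      refine gl_ext fun x => lm_ext (fun v hv => ?_) rfl
      rw [hh_fst _ _ hv, hh_fst _ _ hv, ip_neg_left, sg_neg]
    rcases Int.eq_nat_or_neg c with ⟨k, rfl | rfl⟩
    · rw [natCast_zsmul]; exact h1 k
    · rw [neg_smul, h2, natCast_zsmul]; exact h1 k
  have e : v = v 0 • (Pi.single 0 1 + Pi.single 1 1 : Fin 6 → ℤ) + v 2 • (Pi.single 2 1 + Pi.single 3 1 : Fin 6 → ℤ) +
      v 4 • (Pi.single 4 1 : Fin 6 → ℤ) + v 5 • (Pi.single 5 1 : Fin 6 → ℤ) := by
    have f0 : v 1 = v 0 := congrFun hv 0
    have f2 : v 3 = v 2 := congrFun hv 2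
    apply ext6 <;> simp [f0, f2]
  rw [e, hh_add, hh_add, hh_add]
  exact Subgroup.mul_mem _ (Subgroup.mul_mem _ (Subgroup.mul_mem _ (hz _ m01 _) (hz _ m23 _))
    (hz _ m4 _)) (hz _ m5 _)

/-! ### generation -/

/-- the twisted root subgroup of `v` lies in `L` -/
def Pv (φ : K ≃+* K) (L : Subgroup (GLM B6 K)) (v : Fin 6 → ℤ) : Prop :=
  (Sh v → FS φ L v) ∧ (Lo v → FL φ L v)

theorem Pv_conj {L : Subgroup (GLM B6 K)} {w : Wd 6} (h : Cf w) (hL : NN good6t w ∈ L)
    {v : Fin 6 → ℤ} (hv : ip B6 v v = 2) (h1 : Pv φ L v) : Pv φ L (wv B6 w v) := by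
  rcases Sh_or_Lo hv with h2 | h2
  · refine ⟨fun _ => FS_conj h hL (h1.1 h2) ⟨h2, rfl⟩, fun h3 => ?_⟩
    exact absurd h3.2 (Sh_ne (Sh_wv h h2))
  · refine ⟨fun h3 => absurd (Lo_wv h h2).2 (Sh_ne h3), fun _ => FL_conj h hL (h1.2 h2) rfl⟩

theorem Cf_ex {r : Fin 6 → ℤ} (hr : ip B6 r r = 2) : Cf ((ex [r]).map (Prod.mk true)) := by
  have e : ex [r] = if tau r = r then [r] else [r, tau r] := by rw [ex_cons, ex_nil, List.append_nil]
  rw [e]
  by_cases h : tau r = r
  · rw [if_pos h]
    refine ⟨?_, fun j => ?_, fun j => ?_⟩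
    · intro m hm _
      have : m = (true, r) := by simpa using hm
      rw [this]; exact hr
    · show rf B6 r (tau (Pi.single j 1)) = tau (rf B6 r (Pi.single j 1))
      rw [← rf_flip, h]
    · show eta B6 r (tau (Pi.single j 1)) * 1 = eta B6 r (Pi.single j 1) * 1
      rw [← eta_flip r (Pi.single j 1), h]
  · rw [if_neg h]
    have o := orth_flip hr h
    have o' : ip B6 (tau r) r = 0 := by rw [ip_flip', o]
    have hr' : ip B6 (tau r) (tau r) = 2 := by rw [ip_flip, hr]
    have rr : ∀ v, rf B6 (tau r) (rf B6 r v) = rf B6 r (rf B6 (tau r) v) := by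
      intro v
      unfold rf
      rw [ip_sub_right, ip_smul_right, ip_sub_right, ip_smul_right, o, o']
      simp only [mul_zero, sub_zero]
      abel
    have ee : ∀ v, eta B6 (tau r) (rf B6 r v) * eta B6 r v =
        eta B6 r (rf B6 (tau r) v) * eta B6 (tau r) v := by
      intro v
      unfold eta rf
      rw [← sg_add, ← sg_add]
      apply sg_parity
      have h1 := ip_eq good6t r (tau r)
      rw [ip_sub_right, ip_smul_right, hf_sub_right, hf_smul_right, ip_sub_right, ip_smul_right,
        hf_sub_right, hf_smul_right, o, o']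
      have h2 : hf B6 (tau r) r = - hf B6 r (tau r) := by omega
      rw [h2]
      simp only [mul_zero, sub_zero]
      have : ip B6 (tau r) v * (hf B6 (tau r) v - ip B6 r v * -hf B6 r (tau r)) +
          ip B6 r v * hf B6 r v - (ip B6 r v * (hf B6 r v - ip B6 (tau r) v * hf B6 r (tau r)) +
          ip B6 (tau r) v * hf B6 (tau r) v) =
          2 * (ip B6 (tau r) v * ip B6 r v * hf B6 r (tau r)) := by ring
      omega
    refine ⟨?_, fun j => ?_, fun j => ?_⟩
    · intro m hm _
      have : m = (true, r) ∨ m = (true, tau r) := by simpa using hm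
      rcases this with rfl | rfl
      · exact hr
      · exact hr'
    · show rf B6 r (rf B6 (tau r) (tau (Pi.single j 1))) =
        tau (rf B6 r (rf B6 (tau r) (Pi.single j 1)))
      rw [← rf_flip, ← rf_flip, flip_flip, ← rr]
    · show eta B6 r (rf B6 (tau r) (tau (Pi.single j 1))) *
        (eta B6 (tau r) (tau (Pi.single j 1)) * 1) =
        eta B6 r (rf B6 (tau r) (Pi.single j 1)) * (eta B6 (tau r) (Pi.single j 1) * 1)
      have k1 : rf B6 r (tau (Pi.single j 1)) = tau (rf B6 (tau r) (Pi.single j 1)) := by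
        rw [← rf_flip, flip_flip]
      have k2 : eta B6 r (tau (Pi.single j 1)) = eta B6 (tau r) (Pi.single j 1) := by
        rw [← eta_flip, flip_flip]
      rw [mul_one, mul_one, ← ee, k1, eta_flip, k2]

theorem gstep (hφ : ∀ x, φ (φ x) = x) {L : Subgroup (GLM B6 K)} {e v : Fin 6 → ℤ}
    (he : ip B6 e e = 2) (hv : ip B6 v v = 2) (hev : ip B6 v e = 1) (Pe : Pv φ L e)
    (Pe' : Pv φ L (-e)) (h1 : Pv φ L (v - e))
    (h2 : tau v = v → tau e ≠ e → Pv φ L (v - e - tau e)) : Pv φ L v := by
  have hev' : ip B6 e v = 1 := by rw [ip_comm good6t, hev]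
  have hn : ∀ {x}, ip B6 x x = 2 → tau x = x → Lo x := fun a b => ⟨a, b⟩
  have hNN : (NN good6t ((ex [e]).map (Prod.mk true)) : GLM B6 K) ∈ L := by
    rw [ex_cons, ex_nil, List.append_nil]
    refine NN_tw (K := K) hφ (φ := φ) (fun h => ⟨Pe.2 ⟨he, h⟩ 1 (map_one φ),
      Pe'.2 (Lo_neg ⟨he, h⟩) 1 (map_one φ)⟩) (fun h => ?_) he
    have hs : Sh e := ⟨he, orth_flip he h⟩
    exact ⟨Pe.1 hs 1, Pe'.1 (Sh_neg hs) 1⟩
  have hcf := Cf_ex he
  have hz : ip B6 (v - e) (v - e) = 2 := by
    rw [ip_sub_left, ip_sub_right, ip_sub_right, hv, hev, hev', he]; norm_num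
  by_cases fe : tau e = e
  · have := Pv_conj hcf hNN hz h1
    have e1 : wv B6 ((ex [e]).map (Prod.mk true)) (v - e) = v := by
      rw [ex_cons, ex_nil, List.append_nil, if_pos fe]
      show rf B6 e (v - e) = v
      unfold rf
      rw [ip_sub_right, hev', he]
      norm_num
    rwa [e1] at this
  · have o := orth_flip he fe
    have o' : ip B6 (tau e) e = 0 := by rw [ip_flip', o]
    have he' : ip B6 (tau e) (tau e) = 2 := by rw [ip_flip, he]
    have wve : ∀ x, wv B6 ((ex [e]).map (Prod.mk true)) x = rf B6 e (rf B6 (tau e) x) := by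
      intro x
      rw [ex_cons, ex_nil, List.append_nil, if_neg fe]; rfl
    obtain ⟨k, hk⟩ : ∃ k, ip B6 v (tau e) = k := ⟨_, rfl⟩
    have hk' : ip B6 (tau e) v = k := by rw [ip_comm good6t, hk]
    have hk2 : ip B6 e (tau v) = k := by rw [← ip_flip', hk']
    have c := cs good6t hv he'
    rw [hk] at c
    have c2 : k ≠ 2 := by
      intro h
      have := c.2.2.1 h
      rw [this, o'] at hev; omega
    have c3 : k ≠ -2 := by
      intro h
      have := c.2.2.2 h
      rw [this, ip_neg_left, o'] at hev; omega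
    have zf : ip B6 (v - e) (tau (v - e)) = ip B6 v (tau v) - 2 * k := by
      rw [flip_sub, ip_sub_left, ip_sub_right, ip_sub_right, hk, hk2, o]; ring
    rcases (by omega : k = 0 ∨ k = 1 ∨ k = -1) with h | h | h
    · have := Pv_conj hcf hNN hz h1
      have e1 : wv B6 ((ex [e]).map (Prod.mk true)) (v - e) = v := by
        rw [wve]
        have e2 : rf B6 (tau e) (v - e) = v - e := by
          unfold rf
          rw [ip_sub_right, hk', o', h]
          norm_num
        rw [e2]
        unfold rf
        rw [ip_sub_right, hev', he]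
        norm_num
      rwa [e1] at this
    · have fv : tau v = v := by
        by_contra hne
        rw [orth_flip hv hne, h] at zf
        have hz' : ip B6 (tau (v - e)) (tau (v - e)) = 2 := by rw [ip_flip, hz]
        have := (cs good6t hz hz').2.2.2 (by omega)
        refine flip_ne_neg hz ?_
        rw [eq_neg_iff_add_eq_zero, add_comm, ← eq_neg_iff_add_eq_zero]
        exact this
      have hzz : ip B6 (v - e - tau e) (v - e - tau e) = 2 := by
        have k1 : ip B6 (v - e) (tau e) = 1 := by rw [ip_sub_left, hk, o, h]; norm_num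
        exact root_sub good6t he' hz (by rw [ip_comm good6t, k1])
      have := Pv_conj hcf hNN hzz (h2 fv fe)
      have e1 : wv B6 ((ex [e]).map (Prod.mk true)) (v - e - tau e) = v := by
        rw [wve]
        have e2 : rf B6 (tau e) (v - e - tau e) = v - e := by
          unfold rf
          rw [ip_sub_right, ip_sub_right, hk', o', h, he']
          norm_num
        rw [e2]
        unfold rf
        rw [ip_sub_right, hev', he]
        norm_num
      rwa [e1] at this
    · have fv : tau v ≠ v := by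
        intro hf
        rw [hf] at hk2
        rw [hev'] at hk2; omega
      rw [orth_flip hv fv, h] at zf
      have hz' : ip B6 (tau (v - e)) (tau (v - e)) = 2 := by rw [ip_flip, hz]
      have fz : tau (v - e) = v - e := ((cs good6t hz hz').2.2.1 (by omega)).symm
      have lz : Lo (v - e) := ⟨hz, fz⟩
      have p1 := h1.2 lz
      have hze : ip B6 (v - e) e = -1 := by rw [ip_sub_left, hev, he]; norm_num
      have p2 : FL φ L (e + ((v - e) + tau e)) := by
        have h3 := Pv_conj hcf hNN hz h1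
        have e1 : wv B6 ((ex [e]).map (Prod.mk true)) (v - e) = e + ((v - e) + tau e) := by
          rw [wve]
          unfold rf
          rw [ip_sub_right, hk', o', h]
          simp only [ip_sub_right, ip_smul_right, hev', he, o]
          norm_num
          abel
        rw [e1] at h3
        refine h3.2 ?_
        rw [← e1]
        exact Lo_wv hcf lz
      refine ⟨fun _ => ?_, fun h' => absurd h'.2 fv⟩
      intro t
      have hs : Sh e := ⟨he, o⟩
      have c := Z_com_Y (φ := φ) hz he o fz hze (map_one φ) t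
      have q1 := p1 1 (map_one φ)
      have q2 := Pe.1 hs t
      have q3 : X good6t (e + ((v - e) + tau e)) ((eps B6 e ((v - e) + tau e) : K) * t *
          ((eps B6 (v - e) e : K) * 1 * φ t)) ∈ L := by
        refine p2 _ ?_
        simp only [map_mul, map_intCast, map_one, hφ]
        ring
      have q4 := L.mul_mem (L.mul_mem (L.mul_mem (L.mul_mem q1 q2) (L.inv_mem q1))
        (L.inv_mem q2)) (L.inv_mem q3)
      rw [c] at q4
      have e5 : ∀ a b y z : GLM B6 K, a * b * y * z * z⁻¹ * y⁻¹ * b⁻¹ = a :=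
        fun a b y z => by group
      rw [e5, sub_add_cancel, mul_one] at q4
      have sv : Sh v := ⟨hv, orth_flip hv fv⟩
      exact SS_sign sv (eps_sq (A := B6) (v - e) e) q4

theorem gen_tw (hφ : ∀ x, φ (φ x) = x) {L : Subgroup (GLM B6 K)}
    (h1 : ∀ j, Pv φ L (Pi.single j 1)) (h2 : ∀ j, Pv φ L (-Pi.single j 1)) :
    TwistedGroup B6 φ ≤ L := by
  have hA := good6t
  have fs : ∀ i j : Fin 6, tau (Pi.single i 1) = (Pi.single j 1 : Fin 6 → ℤ) →
      ∀ v : Fin 6 → ℤ, tau v = v → v j = v i := by
    intro i j h v hv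
    have e1 : ∀ i j : Fin 6, tau (Pi.single i 1) = (Pi.single j 1 : Fin 6 → ℤ) →
      (![1, 0, 3, 2, 4, 5] : Fin 6 → Fin 6) i = j := by decide
    have e2 : v i = tau v i := by rw [hv]
    rw [e2]
    show v j = v ((![1, 0, 3, 2, 4, 5] : Fin 6 → Fin 6) i)
    rw [e1 i j h]
  have fex : ∀ i : Fin 6, ∃ j, tau (Pi.single i 1) = (Pi.single j 1 : Fin 6 → ℤ) := by decide
  have key : ∀ (N : ℕ) (v : Fin 6 → ℤ), ip B6 v v = 2 → ∑ j, |v j| < (N : ℤ) → Pv φ L v := by
    intro N
    induction N with
    | zero =>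
      intro v _ h
      have : 0 ≤ ∑ j, |v j| := Finset.sum_nonneg fun j _ => abs_nonneg _
      simp at h; omega
    | succ N ih =>
      intro v hv hN
      push_cast at hN
      obtain ⟨i, ⟨hi, hip⟩ | ⟨hi, hip⟩⟩ := root_cases hv
      · have c := cs hA hv (single_root hA i)
        by_cases h3 : ip B6 v (Pi.single i 1) = 2
        · rw [c.2.2.1 h3]; exact h1 i
        · have h4 : ip B6 v (Pi.single i 1) = 1 := by omega
          have h5 : ip B6 (v - Pi.single i 1) (v - Pi.single i 1) = 2 := by
            rw [ip_sub_left, ip_sub_right, ip_sub_right, ip_comm hA (Pi.single i 1) v, hv, h4,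
              single_root hA]
            norm_num
          refine gstep hφ (single_root hA i) hv h4 (h1 i) (h2 i)
            (ih _ h5 (by have := abs_sub_single hi; omega)) fun fv fe => ?_
          obtain ⟨j, hj⟩ := fex i
          rw [hj] at fe ⊢
          have hij : j ≠ i := fun h => fe (by rw [h])
          have vj : v j = v i := fs i j hj v fv
          have k1 : ip B6 v (Pi.single j 1) = 1 := by rw [← hj, ← ip_flip', fv, h4]
          have k0 : ip B6 (Pi.single i 1) (Pi.single j 1) = 0 := by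
            rw [← hj]; exact orth_flip (single_root hA i) (by rw [hj]; exact fe)
          refine ih _ ?_ ?_
          · refine root_sub hA (single_root hA j) h5 ?_
            rw [ip_sub_right, ip_comm hA (Pi.single j 1) v,
              ip_comm hA (Pi.single j 1) (Pi.single i 1), k1, k0]
            norm_num
          · have g1 := abs_sub_single hi
            have g2 := abs_sub_single (v := v - Pi.single i 1) (i := j)
              (by rw [Pi.sub_apply, Pi.single_eq_of_ne hij, vj]; omega)
            omega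
      · have c := cs hA hv (root_neg (single_root hA i))
        rw [ip_neg_right] at c
        by_cases h3 : ip B6 v (Pi.single i 1) = -2
        · rw [c.2.2.1 (by omega)]; exact h2 i
        · have h4 : ip B6 v (-Pi.single i 1) = 1 := by rw [ip_neg_right]; omega
          have h4' : ip B6 v (Pi.single i 1) = -1 := by omega
          have h5 : ip B6 (v - -Pi.single i 1) (v - -Pi.single i 1) = 2 := by
            rw [sub_neg_eq_add]; exact root_add hA hv (single_root hA i) h4'
          refine gstep hφ (root_neg (single_root hA i)) hv h4 (h2 i) (by rw [neg_neg]; exact h1 i)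
            (ih _ h5 (by rw [sub_neg_eq_add]; have := abs_add_single hi; omega)) fun fv fe => ?_
          obtain ⟨j, hj⟩ := fex i
          rw [flip_neg, hj] at fe ⊢
          have hij : j ≠ i := fun h => fe (by rw [h])
          have vj : v j = v i := fs i j hj v fv
          have k1 : ip B6 v (Pi.single j 1) = -1 := by rw [← hj, ← ip_flip', fv, h4']
          have k0 : ip B6 (Pi.single i 1) (Pi.single j 1) = 0 := by
            rw [← hj]
            exact orth_flip (single_root hA i) (by rw [hj]; exact fun h => fe (by rw [h]))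
          have k2 : ip B6 (v + Pi.single i 1) (Pi.single j 1) = -1 := by
            rw [ip_add_left, k1, k0]; norm_num
          rw [sub_neg_eq_add] at h5
          rw [sub_neg_eq_add, sub_neg_eq_add]
          refine ih _ (root_add hA h5 (single_root hA j) k2) ?_
          have g1 := abs_add_single hi
          have g2 := abs_add_single (v := v + Pi.single i 1) (i := j)
            (by rw [Pi.add_apply, Pi.single_eq_of_ne hij, vj]; omega)
          omega
  have hall : ∀ v : Fin 6 → ℤ, ip B6 v v = 2 → Pv φ L v := by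
    intro v hv
    refine key ((∑ j, |v j|).toNat + 1) v hv ?_
    have : 0 ≤ ∑ j, |v j| := Finset.sum_nonneg fun j _ => abs_nonneg _
    push_cast
    omega
  rw [tw_closure]
  refine (Subgroup.closure_le _).2 ?_
  rintro g (⟨v, t, fv, ht, rfl⟩ | ⟨v, t, fv, rfl⟩)
  · by_cases hv : ip B6 v v = 2
    · exact (hall v hv).2 ⟨hv, fv⟩ t ht
    · rw [X_not good6t hv]; exact L.one_mem
  · by_cases hv : ip B6 v v = 2
    · exact (hall v hv).1 ⟨hv, orth_flip hv fv⟩ t
    · unfold Yt
      rw [X_not good6t hv, X_not good6t (by rwa [ip_flip]), one_mul]; exact L.one_mem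

/-- generation from the four simple roots of the twisted group -/
theorem gen_tw4 (hφ : ∀ x, φ (φ x) = x) {L : Subgroup (GLM B6 K)}
    (a0 : FS φ L ![1, 0, 0, 0, 0, 0]) (b0 : FS φ L ![-1, 0, 0, 0, 0, 0])
    (a2 : FS φ L ![0, 0, 1, 0, 0, 0]) (b2 : FS φ L ![0, 0, -1, 0, 0, 0])
    (a4 : FL φ L ![0, 0, 0, 0, 1, 0]) (b4 : FL φ L ![0, 0, 0, 0, -1, 0])
    (a5 : FL φ L ![0, 0, 0, 0, 0, 1]) (b5 : FL φ L ![0, 0, 0, 0, 0, -1]) :
    TwistedGroup B6 φ ≤ L := by
  have k1 : ∀ v, Sh v → FS φ L v → Pv φ L v := fun v hv h => ⟨fun _ => h, fun h' =>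
    absurd h'.2 (Sh_ne hv)⟩
  have k2 : ∀ v, Lo v → FL φ L v → Pv φ L v := fun v hv h => ⟨fun h' => absurd hv.2 (Sh_ne h'),
    fun _ => h⟩
  have k3 : ∀ v w, Sh v → FS φ L v → tau v = w → Pv φ L w := fun v w hv h e => by
    rw [← e]; exact k1 _ (Sh_flip hv) (FS_flip hφ h hv)
  refine gen_tw hφ (all6 ?_ ?_ ?_ ?_ ?_ ?_) (all6 ?_ ?_ ?_ ?_ ?_ ?_)
  · have e : (Pi.single 0 1 : Fin 6 → ℤ) = ![1, 0, 0, 0, 0, 0] := by decide
    rw [e]; exact k1 _ (by decide) a0
  · exact k3 _ _ (by decide) a0 (by decide)
  · have e : (Pi.single 2 1 : Fin 6 → ℤ) = ![0, 0, 1, 0, 0, 0] := by decide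
    rw [e]; exact k1 _ (by decide) a2
  · exact k3 _ _ (by decide) a2 (by decide)
  · have e : (Pi.single 4 1 : Fin 6 → ℤ) = ![0, 0, 0, 0, 1, 0] := by decide
    rw [e]; exact k2 _ (by decide) a4
  · have e : (Pi.single 5 1 : Fin 6 → ℤ) = ![0, 0, 0, 0, 0, 1] := by decide
    rw [e]; exact k2 _ (by decide) a5
  · have e : (-Pi.single 0 1 : Fin 6 → ℤ) = ![-1, 0, 0, 0, 0, 0] := by decide
    rw [e]; exact k1 _ (by decide) b0
  · exact k3 _ _ (by decide) b0 (by decide)
  · have e : (-Pi.single 2 1 : Fin 6 → ℤ) = ![0, 0, -1, 0, 0, 0] := by decide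
    rw [e]; exact k1 _ (by decide) b2
  · exact k3 _ _ (by decide) b2 (by decide)
  · have e : (-Pi.single 4 1 : Fin 6 → ℤ) = ![0, 0, 0, 0, -1, 0] := by decide
    rw [e]; exact k2 _ (by decide) b4
  · have e : (-Pi.single 5 1 : Fin 6 → ℤ) = ![0, 0, 0, 0, 0, -1] := by decide
    rw [e]; exact k2 _ (by decide) b5

end H41Chev
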