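import Mathlib
import Pool.Agent.H.MP_0335f8_al.helper41t.TGen

/-!
# Assembly for the twisted groups, odd characteristic
-/

namespace H41Chev

variable {K : Type*} [Field K] {φ : K ≃+* K}

/-- conjugacy under a subgroup -/
def CjH (H : Subgroup (GLM B6 K)) (a b : GLM B6 K) : Prop := ∃ g ∈ H, g * a * g⁻¹ = b

theorem CjH.refl (H : Subgroup (GLM B6 K)) (a : GLM B6 K) : CjH H a a :=
  ⟨1, Subgroup.one_mem _, by group⟩

theorem CjH.symm {H : Subgroup (GLM B6 K)} {a b : GLM B6 K} (h : CjH H a b) : CjH H b a := by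
  obtain ⟨g, hg, rfl⟩ := h
  exact ⟨g⁻¹, Subgroup.inv_mem _ hg, by group⟩

theorem CjH.trans {H : Subgroup (GLM B6 K)} {a b c : GLM B6 K} (h : CjH H a b) (h' : CjH H b c) :
    CjH H a c := by
  obtain ⟨g, hg, rfl⟩ := h
  obtain ⟨k, hk, rfl⟩ := h'
  exact ⟨k * g, Subgroup.mul_mem _ hk hg, by group⟩

theorem lo4 : Lo (![0, 0, 0, 0, 1, 0] : Fin 6 → ℤ) := by decide

theorem lo5 : Lo (![0, 0, 0, 0, 0, 1] : Fin 6 → ℤ) := by decide

/-- the lower bound -/
theorem lowerT {k : ℕ} (h : H47Inv.Admissible ↥(TwistedGroup B6 φ) k) : 5 ≤ k := by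
  refine H47Cl.lower5_gen ?_ h
  have hA := good6t
  have key : ∀ {a b : Fin 6 → ℤ} (la : Lo a) (lb : Lo b) (hab : ip B6 a b = -1),
      (⟨X hA (a + b) 1, X_tw (by rw [flip_add, la.2, lb.2]) (map_one φ)⟩ :
        ↥(TwistedGroup B6 φ)) ∈ commutator ↥(TwistedGroup B6 φ) := by
    intro a b la lb hab
    set p : ↥(TwistedGroup B6 φ) :=
      ⟨X hA a ((eps B6 a b : ℤ) : K), X_tw la.2 (map_intCast φ _)⟩ with hp
    set q : ↥(TwistedGroup B6 φ) := ⟨X hA b 1, X_tw lb.2 (map_one φ)⟩ with hq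
    have h1 : (⟨X hA (a + b) 1, X_tw (by rw [flip_add, la.2, lb.2]) (map_one φ)⟩ :
        ↥(TwistedGroup B6 φ)) = p * q * p⁻¹ * q⁻¹ := by
      apply Subtype.ext
      show X hA (a + b) 1 = X hA a ((eps B6 a b : ℤ) : K) * X hA b 1 *
        (X hA a ((eps B6 a b : ℤ) : K))⁻¹ * (X hA b 1)⁻¹
      rw [X_com hA la.1 lb.1 hab, sq_cast (eps_sq _ _), mul_one]
      group
    have h2 := Subgroup.commutator_mem_commutator
      (H₁ := (⊤ : Subgroup ↥(TwistedGroup B6 φ))) (H₂ := ⊤) (Subgroup.mem_top p)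
      (Subgroup.mem_top q)
    rw [commutatorElement_def] at h2
    rw [h1]
    exact h2
  have hab : ip B6 ![0, 0, 0, 0, 1, 0] ![0, 0, 0, 0, 0, 1] = -1 := by decide
  refine ⟨_, key lo4 lo5 hab, _, key (Lo_neg lo4) (Lo_neg lo5)
      (by rw [ip_neg_left, ip_neg_right, neg_neg, hab]), ?_⟩
  intro h
  have h2 := congrArg Subtype.val h
  refine X_not_comm (K := K) hA (root_add hA lo4.1 lo5.1 hab) ?_
  rw [neg_add]
  exact h2

/-- the upper bound from three elements -/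
theorem asmT {a b c : GLM B6 K}
    (ha : a ∈ TwistedGroup B6 φ) (a2 : a * a = 1) (ab : a * b = b * a)
    (cb : CjH (TwistedGroup B6 φ) a b) (cab : CjH (TwistedGroup B6 φ) a (a * b))
    (cc : CjH (TwistedGroup B6 φ) a c)
    (gen : ∀ L : Subgroup (GLM B6 K), a ∈ L → b ∈ L → c ∈ L → TwistedGroup B6 φ ≤ L) :
    H47Inv.Admissible ↥(TwistedGroup B6 φ) 5 := by
  have h1 : a ≠ 1 := by
    intro h
    have hb : b = 1 := by obtain ⟨g, -, hg⟩ := cb; rw [← hg, h]; group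
    have hc : c = 1 := by obtain ⟨g, -, hg⟩ := cc; rw [← hg, h]; group
    have h3 : (X good6t ![0, 0, 0, 0, 1, 0] 1 : GLM B6 K) ∈ TwistedGroup B6 φ :=
      X_tw lo4.2 (map_one φ)
    have := gen ⊥ (by rw [h]; exact Subgroup.one_mem _) (by rw [hb]; exact Subgroup.one_mem _)
      (by rw [hc]; exact Subgroup.one_mem _) h3
    exact X_ne_one good6t lo4.1 (Subgroup.mem_bot.1 this)
  have cm : ∀ {x : GLM B6 K}, CjH (TwistedGroup B6 φ) a x → x ∈ TwistedGroup B6 φ := by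
    rintro x ⟨g, hg, rfl⟩
    exact Subgroup.mul_mem _ (Subgroup.mul_mem _ hg ha) (Subgroup.inv_mem _ hg)
  have co : ∀ {x : GLM B6 K}, CjH (TwistedGroup B6 φ) a x → x * x = 1 ∧ x ≠ 1 := by
    rintro x ⟨g, hg, rfl⟩
    constructor
    · calc g * a * g⁻¹ * (g * a * g⁻¹) = g * (a * a) * g⁻¹ := by group
        _ = 1 := by rw [a2]; group
    · intro h
      apply h1
      calc a = g⁻¹ * (g * a * g⁻¹) * g := by group
        _ = 1 := by rw [h]; group
  set G := TwistedGroup B6 φ with hG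
  set ta : ↥G := ⟨a, ha⟩ with hta
  set tb : ↥G := ⟨b, cm cb⟩ with htb
  set tc : ↥G := ⟨c, cm cc⟩ with htc
  have cj : ∀ x : ↥G, CjH G a x.1 → IsConj ta x := by
    rintro ⟨x, hx⟩ ⟨g, hg, h⟩
    rw [isConj_iff]
    exact ⟨⟨g, hg⟩, Subtype.ext h⟩
  have ord : ∀ x : ↥G, CjH G a x.1 → orderOf x = 2 := by
    intro x hx
    obtain ⟨h2, h3⟩ := co hx
    refine orderOf_eq_prime ?_ ?_
    · rw [pow_two]; exact Subtype.ext h2
    · intro h; exact h3 (congrArg Subtype.val h)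
  have all : ∀ i : Fin 5, CjH G a ((![ta, tb, ta * tb, tc, tc] : Fin 5 → ↥G) i).1 := by
    intro i
    fin_cases i
    · exact CjH.refl G a
    · exact cb
    · exact cab
    · exact cc
    · exact cc
  refine ⟨![ta, tb, ta * tb, tc, tc], fun i => ord _ (all i), fun i j =>
    (cj _ (all i)).symm.trans (cj _ (all j)), ?_, ?_⟩
  · rw [eq_top_iff]
    intro g _
    set H := Subgroup.closure (Set.range (![ta, tb, ta * tb, tc, tc] : Fin 5 → ↥G)) with hH
    have m : ∀ i : Fin 5, ((![ta, tb, ta * tb, tc, tc] : Fin 5 → ↥G) i).1 ∈ H.map G.subtype :=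
      fun i => ⟨_, Subgroup.subset_closure ⟨i, rfl⟩, rfl⟩
    have := gen (H.map G.subtype) (m 0) (m 1) (m 3) g.2
    obtain ⟨g', hg', e⟩ := this
    have : g' = g := Subtype.ext e
    rw [← this]; exact hg'
  · have e : (List.ofFn (![ta, tb, ta * tb, tc, tc] : Fin 5 → ↥G)).prod =
        ta * (tb * (ta * tb * (tc * (tc * 1)))) := by
      simp [List.ofFn_succ]
    rw [e]
    apply Subtype.ext
    show a * (b * (a * b * (c * (c * 1)))) = 1
    have c2 := (co cc).1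
    have b2 := (co cb).1
    calc a * (b * (a * b * (c * (c * 1)))) = a * b * (a * b) * (c * c) := by group
      _ = a * b * (b * a) := by rw [c2, ← ab, mul_one]
      _ = a * (b * b) * a := by group
      _ = 1 := by rw [b2, mul_one, a2]

/-! ### conjugacy of monomial elements -/

/-- the conjugating element -/
def gp (l : List (Fin 6 → ℤ)) : GLM B6 K :=
  (l.map fun r => X good6t r 1 * X good6t (-r) (1 / 2 : K)).prod

theorem gp_conj (hK : (2 : K) ≠ 0) {l : List (Fin 6 → ℤ)} {v : Fin 6 → ℤ}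
    (h : Mo B6 l v) : (gp l * hh B6 K v * (gp l)⁻¹ : GLM B6 K) = NN good6t (mw l v) := by
  have hA := good6t
  induction l with
  | nil =>
    show (1 : GLM B6 K) * hh B6 K v * 1⁻¹ = hh B6 K v * 1
    group
  | cons r l ih =>
    obtain ⟨hr, h1, h2⟩ := Orth_cons h.1
    have ih := ih ⟨h2, fun r hr => h.2 r (by simp [hr])⟩
    have ho := h.2 r (by simp)
    have e1 : ∀ t : K, NN hA (mw l v) * X hA r t = X hA r (-t) * NN hA (mw l v) := by
      intro t
      rw [mw_X hA h2.1 (fun s hs => by rw [ip_comm hA, h1 s hs]), sg_odd ho]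
      push_cast; rw [neg_one_mul]
    have e2 : ∀ t : K, NN hA (mw l v) * X hA (-r) t = X hA (-r) (-t) * NN hA (mw l v) := by
      intro t
      rw [mw_X hA h2.1 (fun s hs => by rw [ip_neg_right, ip_comm hA, h1 s hs, neg_zero]),
        ip_neg_right, sg_neg, sg_odd ho]
      push_cast; rw [neg_one_mul]
    have e0 : (gp (r :: l) : GLM B6 K) = X hA r 1 * X hA (-r) (1 / 2 : K) * gp l := by
      unfold gp; rw [List.map_cons, List.prod_cons]
    have e4 : (NN hA (mw (r :: l) v) : GLM B6 K) = nn hA r * NN hA (mw l v) := rfl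
    rw [e0, e4]
    have e3 : (X hA r 1 * X hA (-r) (1 / 2 : K) : GLM B6 K)⁻¹ =
        X hA (-r) (-(1 / 2) : K) * X hA r (-1) := by
      rw [mul_inv_rev, X_inv, X_inv]
    have e5 : (X hA r 1 * X hA (-r) (1 / 2 : K) * gp l * hh B6 K v *
        (X hA r 1 * X hA (-r) (1 / 2 : K) * gp l)⁻¹ : GLM B6 K) =
        X hA r 1 * X hA (-r) (1 / 2 : K) * (gp l * hh B6 K v * (gp l)⁻¹) *
        (X hA r 1 * X hA (-r) (1 / 2 : K))⁻¹ := by group
    rw [e5, ih, e3]
    unfold nn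
    calc X hA r (1 : K) * X hA (-r) (1 / 2 : K) * NN hA (mw l v) *
          (X hA (-r) (-(1 / 2) : K) * X hA r (-1 : K))
        = X hA r 1 * X hA (-r) (1 / 2 : K) * (NN hA (mw l v) * X hA (-r) (-(1 / 2) : K)) * X hA r (-1) := by
          group
      _ = X hA r 1 * (X hA (-r) (1 / 2 : K) * X hA (-r) (1 / 2 : K)) * (NN hA (mw l v) * X hA r (-1)) := by
          rw [e2, neg_neg]; group
      _ = X hA r 1 * X hA (-r) (1 / 2 + 1 / 2 : K) * X hA r 1 * NN hA (mw l v) := by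
          rw [e1, neg_neg, X_add]; group
      _ = _ := by rw [show (1 / 2 + 1 / 2 : K) = 1 by field_simp; norm_num]

theorem gp_append (l l' : List (Fin 6 → ℤ)) : (gp (l ++ l') : GLM B6 K) = gp l * gp l' := by
  unfold gp; rw [List.map_append, List.prod_append]

theorem gp_mem {l : List (Fin 6 → ℤ)} (hl : ∀ r ∈ l, ip B6 r r = 2) :
    (gp (ex l) : GLM B6 K) ∈ TwistedGroup B6 φ := by
  induction l with
  | nil => exact Subgroup.one_mem _
  | cons r l ih =>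
    rw [ex_cons, gp_append]
    refine Subgroup.mul_mem _ ?_ (ih fun s hs => hl s (by simp [hs]))
    have hr := hl r (by simp)
    by_cases h : tau r = r
    · rw [if_pos h]
      show X good6t r 1 * X good6t (-r) (1 / 2 : K) * 1 ∈ _
      rw [mul_one]
      exact Subgroup.mul_mem _ (X_tw h (map_one φ))
        (X_tw (by rw [flip_neg, h]) (by rw [map_div₀, map_one, map_ofNat]))
    · rw [if_neg h]
      have o := orth_flip hr h
      have e : (gp [r, tau r] : GLM B6 K) = Yt φ r 1 * Yt φ (-r) (1 / 2) := by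
        show X good6t r 1 * X good6t (-r) (1 / 2 : K) *
          (X good6t (tau r) 1 * X good6t (-tau r) (1 / 2 : K) * 1) = _
        unfold Yt
        rw [map_one, map_div₀, map_one, map_ofNat, flip_neg, mul_one]
        have c := X_comm (K := K) good6t (u := tau r) (v := -r)
          (by rw [ip_neg_right, ip_flip', o]; norm_num) 1 (1 / 2)
        symm
        calc X good6t r 1 * X good6t (tau r) 1 * (X good6t (-r) (1 / 2) *
              X good6t (-tau r) (1 / 2 : K))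
            = X good6t r 1 * (X good6t (tau r) 1 * X good6t (-r) (1 / 2)) *
              X good6t (-tau r) (1 / 2 : K) := by group
          _ = _ := by rw [c]; group
      rw [e]
      refine Subgroup.mul_mem _ (Y_tw h 1) (Y_tw ?_ _)
      rw [flip_neg]; exact fun h' => h (neg_inj.1 h')

/-- the monomial element is conjugate to the standard involution -/
def StdT (v0 : Fin 6 → ℤ) (l : List (Fin 6 → ℤ)) (v : Fin 6 → ℤ) (w : List (Fin 6 → ℤ)) : Prop :=
  (∀ r ∈ l, ip B6 r r = 2) ∧ Mo B6 (ex l) v ∧ (∀ r ∈ w, ip B6 r r = 2) ∧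
  wok B6 ((ex w).map (Prod.mk true)) ∧
  ∀ j, ip B6 (wv B6 ((ex w).map (Prod.mk true)) v - v0) (Pi.single j 1) % 2 = 0

instance (v0 : Fin 6 → ℤ) (l : List (Fin 6 → ℤ)) (v : Fin 6 → ℤ) (w : List (Fin 6 → ℤ)) :
    Decidable (StdT v0 l v w) := by unfold StdT; infer_instance

theorem stdT_conj (hφ : ∀ x, φ (φ x) = x) (hK : (2 : K) ≠ 0) {v0 : Fin 6 → ℤ}
    {l : List (Fin 6 → ℤ)} {v : Fin 6 → ℤ} {w : List (Fin 6 → ℤ)} (h : StdT v0 l v w) :
    CjH (TwistedGroup B6 φ) (hh B6 K v0) (NN good6t (mw (ex l) v)) := by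
  obtain ⟨h0, h1, h2, h3, h4⟩ := h
  have h5 : CjH (TwistedGroup B6 φ) (hh B6 K v) (hh B6 K v0) := by
    refine ⟨NN good6t ((ex w).map (Prod.mk true)), NNe_mem hφ h2, ?_⟩
    rw [NN_hh good6t h3, mul_assoc, mul_inv_cancel, mul_one]
    exact hh_congr h4
  exact h5.symm.trans ⟨gp (ex l), gp_mem h0, gp_conj hK h1⟩

/-- the upper bound in odd characteristic -/
theorem admT (hφ : ∀ x, φ (φ x) = x) (hK : (2 : K) ≠ 0)
    {v0 va vb vc vd : Fin 6 → ℤ} {la lb lc ld ua ub uc ud : List (Fin 6 → ℤ)} {d2 : Wd 6}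
    (fv : tau va = va)
    (sa : StdT v0 la va ua) (sb : StdT v0 lb vb ub) (sc : StdT v0 lc vc uc) (sd : StdT v0 ld vd ud)
    (H : Cert0 B6 (ex la) va (ex lb) vb (ex lc) vc (ex ld) vd d2)
    {C D : GLM B6 K} (hD : D ∈ TwistedGroup B6 φ) (hDC : D * D = C)
    (hcD : NN good6t (mw (ex lc) vc) * D = D⁻¹ * NN good6t (mw (ex lc) vc))
    (haC : NN good6t (mw (ex la) va) * C = C⁻¹ * NN good6t (mw (ex la) va)) {m : ℕ}
    (hm : m % 2 = 1) (hCm : C ^ m = 1)
    (gen : ∀ L : Subgroup (GLM B6 K), NN good6t (mw (ex la) va) ∈ L →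
      NN good6t (mw (ex lb) vb) ∈ L → NN good6t (mw (ex lc) vc) ∈ L → C ∈ L →
      TwistedGroup B6 φ ≤ L) :
    H47Inv.Admissible ↥(TwistedGroup B6 φ) 5 := by
  have hA := good6t
  have ca := stdT_conj (K := K) hφ hK sa
  have cb := stdT_conj (K := K) hφ hK sb
  have cc := stdT_conj (K := K) hφ hK sc
  have cd := stdT_conj (K := K) hφ hK sd
  obtain ⟨⟨oka, okb, okc, okd'⟩, e1, e2, okd, e3, e4, e5, e6⟩ := H
  have hab : (NN hA (mw (ex la) va) * NN hA (mw (ex lb) vb) : GLM B6 K) =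
      NN hA (mw (ex ld) vd) := by
    rw [← NN_append]
    exact NN_eq_int hA (wok_append oka okb) okd' e1 e2
  have hsq : ∀ {x : GLM B6 K}, CjH (TwistedGroup B6 φ) (hh B6 K v0) x → x * x = 1 := by
    rintro x ⟨g, -, rfl⟩
    calc g * hh B6 K v0 * g⁻¹ * (g * hh B6 K v0 * g⁻¹) = g * (hh B6 K v0 * hh B6 K v0) * g⁻¹ := by group
      _ = 1 := by rw [hh_sq]; group
  have a2 := hsq ca
  have b2 := hsq cb
  have d2' := hsq cd
  have hcomm : (NN hA (mw (ex la) va) * NN hA (mw (ex lb) vb) : GLM B6 K) =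
      NN hA (mw (ex lb) vb) * NN hA (mw (ex la) va) := by
    rw [← hab] at d2'
    calc (NN hA (mw (ex la) va) * NN hA (mw (ex lb) vb) : GLM B6 K)
        = (NN hA (mw (ex la) va) * NN hA (mw (ex lb) vb) *
            (NN hA (mw (ex la) va) * NN hA (mw (ex lb) vb))) *
          (NN hA (mw (ex la) va) * NN hA (mw (ex lb) vb))⁻¹ := by group
      _ = (NN hA (mw (ex lb) vb))⁻¹ * (NN hA (mw (ex la) va))⁻¹ := by rw [d2']; group
      _ = _ := by rw [inv_eq_of_mul_eq_one_left a2, inv_eq_of_mul_eq_one_left b2]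
  have h4 : (NN hA (mw (ex lc) vc) * NN hA (mw (ex la) va) : GLM B6 K) ^ 4 = 1 := by
    have f1 : (NN hA (mw (ex lc) vc) * NN hA (mw (ex la) va) *
        (NN hA (mw (ex lc) vc) * NN hA (mw (ex la) va)) : GLM B6 K) = NN hA d2 := by
      rw [← NN_append, ← NN_append]
      exact NN_eq_int hA (wok_append (wok_append okc oka) (wok_append okc oka)) okd e3 e4
    have f2 : (NN hA d2 * NN hA d2 : GLM B6 K) = 1 := by
      rw [← NN_append]
      exact (NN_eq_int (w' := []) hA (wok_append okd okd) (fun _ h _ => absurd h (by simp))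
        e5 e6).trans rfl
    calc (NN hA (mw (ex lc) vc) * NN hA (mw (ex la) va) : GLM B6 K) ^ 4
        = (NN hA (mw (ex lc) vc) * NN hA (mw (ex la) va) *
            (NN hA (mw (ex lc) vc) * NN hA (mw (ex la) va))) *
          (NN hA (mw (ex lc) vc) * NN hA (mw (ex la) va) *
            (NN hA (mw (ex lc) vc) * NN hA (mw (ex la) va))) := by
          rw [pow_succ, pow_succ, pow_succ, pow_one]; group
      _ = 1 := by rw [f1, f2]
  have hcC : NN hA (mw (ex lc) vc) * C = C⁻¹ * NN hA (mw (ex lc) vc) := by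
    rw [← hDC, ← mul_assoc, hcD, mul_assoc, hcD]; group
  have cC : CjH (TwistedGroup B6 φ) (NN hA (mw (ex lc) vc) : GLM B6 K)
      (C * NN hA (mw (ex lc) vc)) := by
    refine ⟨D, hD, ?_⟩
    have e7 : NN hA (mw (ex lc) vc) * D⁻¹ = D * NN hA (mw (ex lc) vc) := by
      calc NN hA (mw (ex lc) vc) * D⁻¹ = D * (D⁻¹ * NN hA (mw (ex lc) vc)) * D⁻¹ := by group
        _ = D * (NN hA (mw (ex lc) vc) * D) * D⁻¹ := by rw [hcD]
        _ = _ := by group
    rw [mul_assoc, e7, ← mul_assoc, hDC]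
  have hmem : (NN hA (mw (ex la) va) : GLM B6 K) ∈ TwistedGroup B6 φ := by
    unfold mw
    rw [NN_append]
    refine Subgroup.mul_mem _ (NNe_mem hφ sa.1) ?_
    show hh B6 K va * 1 ∈ _
    rw [mul_one]
    exact hh_tw hφ fv
  refine asmT hmem a2 hcomm (ca.symm.trans cb) ?_ ((ca.symm.trans cc).trans cC) ?_
  · rw [hab]; exact ca.symm.trans cd
  · intro L ha hb hc
    obtain ⟨g1, g2⟩ := engine haC hcC h4 hCm hm ha hc
    exact gen L ha hb g2 g1

/-! ### pairs -/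

/-- the twisted root elements of `v` and `w` commute -/
def Cm (v w : Fin 6 → ℤ) : Prop := Sh v ∧ Sh w ∧ 0 ≤ ip B6 v w ∧ 0 ≤ ip B6 v (tau w)

instance (v w : Fin 6 → ℤ) : Decidable (Cm v w) := by unfold Cm; infer_instance

theorem Y_comm {v w : Fin 6 → ℤ} (h : Cm v w) (s t : K) :
    Yt φ v s * Yt φ w t = Yt φ w t * Yt φ v s := by
  obtain ⟨-, -, h1, h2⟩ := h
  unfold Yt
  have c1 := X_comm good6t (u := v) (v := w) h1 s t
  have c2 := X_comm good6t (u := v) (v := tau w) h2 s (φ t)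
  have c3 := X_comm good6t (u := tau v) (v := w) (by rw [ip_flip']; exact h2) (φ s) t
  have c4 := X_comm good6t (u := tau v) (v := tau w) (by rw [ip_flip]; exact h1) (φ s) (φ t)
  calc X good6t v s * X good6t (tau v) (φ s) * (X good6t w t * X good6t (tau w) (φ t))
      = X good6t v s * (X good6t (tau v) (φ s) * X good6t w t) * X good6t (tau w) (φ t) := by group
    _ = (X good6t v s * X good6t w t) * (X good6t (tau v) (φ s) * X good6t (tau w) (φ t)) := by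
        rw [c3]; group
    _ = X good6t w t * (X good6t v s * X good6t (tau w) (φ t)) * X good6t (tau v) (φ s) := by
        rw [c1, c4]; group
    _ = _ := by rw [c2]; group

/-- a product of two twisted root elements with signs lies in `L` -/
def PY (φ : K ≃+* K) (L : Subgroup (GLM B6 K)) (s : K) (v1 : Fin 6 → ℤ) (c1 : ℤ)
    (v2 : Fin 6 → ℤ) (c2 : ℤ) : Prop := Yt φ v1 ((c1 : K) * s) * Yt φ v2 ((c2 : K) * s) ∈ L

variable {L : Subgroup (GLM B6 K)}

theorem PY_conj {s : K} {w : Wd 6} (hw : Cf w) (hL : NN good6t w ∈ L)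
    {v1 v2 v1' v2' : Fin 6 → ℤ} {c1 c2 c1' c2' : ℤ} (h : PY φ L s v1 c1 v2 c2)
    (e : wv B6 w v1 = v1' ∧ ws B6 w v1 * c1 = c1' ∧ wv B6 w v2 = v2' ∧ ws B6 w v2 * c2 = c2') :
    PY φ L s v1' c1' v2' c2' := by
  obtain ⟨rfl, rfl, rfl, rfl⟩ := e
  have h2 := L.mul_mem (L.mul_mem hL h) (L.inv_mem hL)
  unfold PY
  have e3 : NN good6t w * (Yt φ v1 ((c1 : K) * s) * Yt φ v2 ((c2 : K) * s)) * (NN good6t w)⁻¹ =
      Yt φ (wv B6 w v1) (((ws B6 w v1 * c1 : ℤ) : K) * s) *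
        Yt φ (wv B6 w v2) (((ws B6 w v2 * c2 : ℤ) : K) * s) := by
    rw [← mul_assoc, NN_Y hw, mul_assoc (Yt φ (wv B6 w v1) _), NN_Y hw, Int.cast_mul,
      Int.cast_mul, mul_assoc (ws B6 w v1 : K), mul_assoc (ws B6 w v2 : K)]
    group
  rw [← e3]; exact h2

/-- exchange the two factors -/
theorem PY_swap {s : K} {v1 v2 : Fin 6 → ℤ} {c1 c2 : ℤ} (h : PY φ L s v1 c1 v2 c2)
    (e : Cm v1 v2) : PY φ L s v2 c2 v1 c1 := by
  unfold PY at *
  rwa [Y_comm e] at h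

/-- change both signs -/
theorem PY_neg {s : K} {v1 v2 : Fin 6 → ℤ} {c1 c2 c1' c2' : ℤ} (h : PY φ L s v1 c1 v2 c2)
    (e : Cm v1 v2 ∧ c1' = -c1 ∧ c2' = -c2) : PY φ L s v1 c1' v2 c2' := by
  obtain ⟨e, rfl, rfl⟩ := e
  have h2 := L.inv_mem h
  unfold PY
  rw [mul_inv_rev, Y_inv e.2.1.2, Y_inv e.1.2, ← Y_comm e] at h2
  push_cast
  rw [neg_mul, neg_mul]
  exact h2

theorem PY_single {u : K} (h2 : (2 : K) ≠ 0)
    {v1 v2 : Fin 6 → ℤ} {c1 c1' : ℤ} (h : PY φ L (u / 2) v1 c1 v2 1)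
    (h' : PY φ L (u / 2) v1 c1' v2 1) (e : Cm v1 v2 ∧ c1' = -c1) : SS φ L v2 u := by
  obtain ⟨e1, rfl⟩ := e
  have h3 := L.mul_mem h h'
  unfold SS
  have e2 : Yt φ v1 ((c1 : K) * (u / 2)) * Yt φ v2 (((1 : ℤ) : K) * (u / 2)) *
      (Yt φ v1 (((-c1 : ℤ) : K) * (u / 2)) * Yt φ v2 (((1 : ℤ) : K) * (u / 2))) = Yt φ v2 u := by
    have c := Y_comm (φ := φ) e1 (((-c1 : ℤ) : K) * (u / 2)) (((1 : ℤ) : K) * (u / 2))
    calc Yt φ v1 ((c1 : K) * (u / 2)) * Yt φ v2 (((1 : ℤ) : K) * (u / 2)) *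
        (Yt φ v1 (((-c1 : ℤ) : K) * (u / 2)) * Yt φ v2 (((1 : ℤ) : K) * (u / 2)))
        = Yt φ v1 ((c1 : K) * (u / 2)) * (Yt φ v2 (((1 : ℤ) : K) * (u / 2)) *
          Yt φ v1 (((-c1 : ℤ) : K) * (u / 2))) * Yt φ v2 (((1 : ℤ) : K) * (u / 2)) := by group
      _ = Yt φ v1 ((c1 : K) * (u / 2)) * Yt φ v1 (((-c1 : ℤ) : K) * (u / 2)) *
          (Yt φ v2 (((1 : ℤ) : K) * (u / 2)) * Yt φ v2 (((1 : ℤ) : K) * (u / 2))) := by
          rw [← c]; group
      _ = Yt φ v1 0 * Yt φ v2 u := by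
          rw [Y_add e1.1.2, Y_add e1.2.1.2]
          congr 2
          · push_cast; ring
          · push_cast; field_simp; norm_num
      _ = _ := by rw [Y_zero, one_mul]
  rw [← e2]; exact h3

theorem FS_flip' (hφ : ∀ x, φ (φ x) = x) {v w : Fin 6 → ℤ} (h : FS φ L v)
    (e : Sh v ∧ tau v = w) : FS φ L w := e.2 ▸ FS_flip hφ h e.1

theorem YY_sq {r s : Fin 6 → ℤ} (h : Cm r s) (t : K) :
    Yt φ r t * Yt φ s t * (Yt φ r t * Yt φ s t) = Yt φ r (t + t) * Yt φ s (t + t) := by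
  have c := Y_comm (φ := φ) h t t
  calc Yt φ r t * Yt φ s t * (Yt φ r t * Yt φ s t)
      = Yt φ r t * (Yt φ s t * Yt φ r t) * Yt φ s t := by group
    _ = (Yt φ r t * Yt φ r t) * (Yt φ s t * Yt φ s t) := by rw [← c]; group
    _ = _ := by rw [Y_add h.1.2, Y_add h.2.1.2]

theorem Y_pow {r : Fin 6 → ℤ} (h : Sh r) (t : K) (m : ℕ) :
    (Yt φ r t) ^ m = Yt φ r (m * t) := by
  induction m with
  | zero => rw [pow_zero, Nat.cast_zero, zero_mul, Y_zero]
  | succ m ih => rw [pow_succ, ih, Y_add h.2]; congr 1; push_cast; ring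

theorem YY_pow {r s : Fin 6 → ℤ} (h : Cm r s) {m : ℕ} (hm : (m : K) = 0) (t : K) :
    (Yt φ r t * Yt φ s t) ^ m = 1 := by
  have c : Commute (Yt φ r t) (Yt φ s t) := Y_comm (φ := φ) h t t
  rw [c.mul_pow, Y_pow h.1, Y_pow h.2.1, hm, zero_mul, Y_zero, Y_zero, one_mul]

theorem inv_swapY {w : Wd 6} (hw : Cf w) {r s : Fin 6 → ℤ}
    (e : Sh r ∧ Sh s ∧ wv B6 w r = s ∧ ws B6 w r = -1 ∧ wv B6 w s = r ∧ ws B6 w s = -1) (t : K) :
    NN good6t w * (Yt φ r t * Yt φ s t) = (Yt φ r t * Yt φ s t)⁻¹ * NN good6t w := by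
  obtain ⟨h1, h2, a1, a2, b1, b2⟩ := e
  rw [← mul_assoc, NN_Y hw, a1, a2, mul_assoc, NN_Y hw, b1, b2, mul_inv_rev, Y_inv h1.2,
    Y_inv h2.2, mul_assoc]
  push_cast
  rw [neg_one_mul]

theorem inv_fixY {w : Wd 6} (hw : Cf w) {r s : Fin 6 → ℤ} (h : Cm r s)
    (e : wv B6 w r = r ∧ ws B6 w r = -1 ∧ wv B6 w s = s ∧ ws B6 w s = -1) (t : K) :
    NN good6t w * (Yt φ r t * Yt φ s t) = (Yt φ r t * Yt φ s t)⁻¹ * NN good6t w := by
  obtain ⟨a1, a2, b1, b2⟩ := e
  rw [← mul_assoc, NN_Y hw, a1, a2, mul_assoc, NN_Y hw, b1, b2, mul_inv_rev, Y_inv h.1.2,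
    Y_inv h.2.1.2, ← Y_comm h, mul_assoc]
  push_cast
  rw [neg_one_mul]

end H41Chev
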