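import Mathlib
import Pool.Agent.H.MP_0335f8_al.helper41t.TOdd

/-!
# The certificate for the twisted groups, odd characteristic
-/

namespace H41Chev.Todd

variable {K : Type*} [Field K] {φ : K ≃+* K}

/-- roots -/
def la : List (Fin 6 → ℤ) := []

/-- roots -/
def lb : List (Fin 6 → ℤ) := [![0, 1, 1, 1, 2, 1], ![1, 1, 1, 1, 1, 0], ![0, 0, 1, 1, 1, 0]]

/-- roots -/
def lc : List (Fin 6 → ℤ) := [![0, 0, 0, 0, 0, 1], ![0, 1, 0, 1, 0, 0]]

/-- roots -/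
def ld : List (Fin 6 → ℤ) := [![0, 1, 1, 1, 2, 1], ![1, 1, 1, 1, 1, 0], ![0, 0, 1, 1, 1, 0]]

/-- torus part -/
def va : Fin 6 → ℤ := ![0, 0, 1, 1, 1, 0]

/-- torus part -/
def vb : Fin 6 → ℤ := ![0, 0, 0, 0, 1, 1]

/-- torus part -/
def vc : Fin 6 → ℤ := ![0, 0, 0, 0, 1, 1]

/-- torus part -/
def vd : Fin 6 → ℤ := ![0, 0, 1, 1, 0, 1]

/-- word -/
def ua : List (Fin 6 → ℤ) := []

/-- word -/
def ub : List (Fin 6 → ℤ) := [![0, 0, 1, 1, 2, 1]]

/-- word -/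
def uc : List (Fin 6 → ℤ) := [![0, 0, 1, 1, 2, 1]]

/-- word -/
def ud : List (Fin 6 → ℤ) := [![0, 0, 0, 0, 1, 1]]

/-- the square of the product -/
def d2 : Wd 6 := [(false, ![0, 0, 0, 0, 0, 1])]

theorem cfa : Cf (mw (ex la) va) := by decide +kernel

theorem cfb : Cf (mw (ex lb) vb) := by decide +kernel

theorem cfc : Cf (mw (ex lc) vc) := by decide +kernel

theorem cert : Cert0 B6 (ex la) va (ex lb) vb (ex lc) vc (ex ld) vd d2 := by decide +kernel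

theorem sta : StdT va la va ua := by decide +kernel

theorem stb : StdT va lb vb ub := by decide +kernel

theorem stc : StdT va lc vc uc := by decide +kernel

theorem std : StdT va ld vd ud := by decide +kernel

/-- the three elements and one pair generate -/
theorem gen (hφ : ∀ x, φ (φ x) = x) (h2 : (2 : K) ≠ 0) {u : K} (hu : u ≠ 0)
    (hs : AddSubgroup.closure (Set.range fun i : ℕ => (u * u) ^ i) = ⊤)
    (L : Subgroup (GLM B6 K)) (ha : NN good6t (mw (ex la) va) ∈ L)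
    (hb : NN good6t (mw (ex lb) vb) ∈ L) (hc : NN good6t (mw (ex lc) vc) ∈ L)
    (h0 : Yt φ ![-1, 0, 0, 0, 0, 0] (u / 2) * Yt φ ![0, 0, 1, 0, 0, 0] (u / 2) ∈ L) :
    TwistedGroup B6 φ ≤ L := by
  have p0 : PY φ L (u / 2) ![-1, 0, 0, 0, 0, 0] 1 ![0, 0, 1, 0, 0, 0] 1 := by
    unfold PY; rw [Int.cast_one, one_mul]; exact h0
  have p1 : PY φ L (u / 2) ![1, 0, 0, 0, 0, 0] (-1) ![1, 0, 1, 0, 1, 1] (-1) :=
    PY_conj cfb hb p0 (by decide +kernel)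
  have p2 : PY φ L (u / 2) ![0, 0, -1, 0, 0, 0] 1 ![0, 1, 0, 1, 1, 0] 1 :=
    PY_conj cfc hc p1 (by decide +kernel)
  have p3 := PY_swap p2 (by decide +kernel)
  have p4 : PY φ L (u / 2) ![0, 0, -1, 0, 0, 0] (-1) ![0, 1, 0, 1, 1, 0] 1 :=
    PY_conj cfa ha p2 (by decide +kernel)
  have p5 := PY_swap p4 (by decide +kernel)
  have p6 : PY φ L (u / 2) ![0, 1, 0, 1, 1, 0] (-1) ![0, 0, -1, 0, 0, 0] 1 :=
    PY_neg p5 (by decide +kernel)
  have f0 : SS φ L ![0, 0, -1, 0, 0, 0] u :=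
    PY_single h2 p3 p6 (by decide +kernel)
  have f1 : SS φ L ![1, 0, 0, 0, 0, 0] u :=
    SS_conj cfc hc f0 (by decide +kernel)
  have f2 : SS φ L ![-1, 0, 0, 0, 0, 0] u :=
    SS_conj cfb hb f1 (by decide +kernel)
  have f3 : SS φ L ![0, 0, 1, 0, 0, 0] u :=
    SS_conj cfc hc f2 (by decide +kernel)
  have f4 : FS φ L ![1, 0, 0, 0, 0, 0] :=
    FS_loop hu hs f1 f3 f0 (by decide +kernel)
  have f5 : FS φ L ![-1, 0, 0, 0, 0, 0] :=
    FS_loop hu hs f2 f0 f3 (by decide +kernel)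
  have f6 : FS φ L ![0, 0, 1, 0, 0, 0] :=
    FS_loop hu hs f3 f1 f2 (by decide +kernel)
  have f7 : FS φ L ![0, 0, -1, 0, 0, 0] :=
    FS_loop hu hs f0 f2 f1 (by decide +kernel)
  have f8 : SS φ L ![-1, 0, -1, 0, -1, -1] u :=
    SS_conj cfb hb f0 (by decide +kernel)
  have f9 : FS φ L ![-1, 0, -1, 0, -1, -1] :=
    FS_loop hu hs f8 f1 f2 (by decide +kernel)
  have f10 : FS φ L ![0, -1, 0, -1, -1, -1] :=
    FS_flip' hφ f9 (by decide +kernel)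
  have f11 : FS φ L ![0, -1, -1, -1, -1, -1] :=
    FS_sum hu f10 f0 (by decide +kernel)
  have f12 : SS φ L ![0, -1, 0, -1, -1, 0] u :=
    SS_conj cfc hc f8 (by decide +kernel)
  have f13 : SS φ L ![1, 1, 2, 1, 2, 1] u :=
    SS_conj cfb hb f12 (by decide +kernel)
  have f14 : SS φ L ![0, 1, 1, 1, 2, 1] u :=
    SS_conj cfc hc f13 (by decide +kernel)
  have f15 : FL φ L ![0, 0, 0, 0, 1, 0] :=
    FL_of_FS h2 hu f11 f14 (by decide +kernel)
  have f16 : FL φ L ![-1, -1, -1, -1, -1, -1] :=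
    FL_of_FS h2 hu f11 f2 (by decide +kernel)
  have f17 : FL φ L ![0, 0, 0, 0, -1, 0] :=
    FL_conj cfc hc f16 (by decide +kernel)
  have f18 : FS φ L ![-1, 0, -1, 0, -1, 0] :=
    FS_conj cfc hc f10 (by decide +kernel)
  have f19 : SS φ L ![1, 0, 1, 0, 1, 1] u :=
    SS_conj cfb hb f3 (by decide +kernel)
  have f20 : FL φ L ![0, 0, 0, 0, 0, 1] :=
    FL_of_FS h2 hu f18 f19 (by decide +kernel)
  have f21 : SS φ L ![0, 1, 0, 1, 1, 0] u :=
    SS_conj cfc hc f19 (by decide +kernel)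
  have f22 : FL φ L ![0, 0, 0, 0, 0, -1] :=
    FL_of_FS h2 hu f10 f21 (by decide +kernel)
  exact gen_tw4 hφ f4 f5 f6 f7 f15 f17 f20 f22

/-- the upper bound in odd characteristic -/
theorem adm [Finite K] (hφ : ∀ x, φ (φ x) = x) (h2 : (2 : K) ≠ 0) :
    H47Inv.Admissible ↥(TwistedGroup B6 φ) 5 := by
  obtain ⟨u, hu, hg⟩ := exists_gen K
  obtain ⟨m, hm, hm0⟩ := odd_char h2
  have hs : AddSubgroup.closure (Set.range fun i : ℕ => (u * u) ^ i) = ⊤ := by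
    have := sp_odd h2 hg
    unfold Sp at this
    rw [← this]
    congr 1
    ext x
    simp only [Set.mem_range]
    constructor
    · rintro ⟨i, rfl⟩; exact ⟨i, by rw [pow_mul]; ring⟩
    · rintro ⟨i, rfl⟩; exact ⟨i, by rw [pow_mul]; ring⟩
  have cm : Cm ![-1, 0, 0, 0, 0, 0] ![0, 0, 1, 0, 0, 0] := by decide +kernel
  set D : GLM B6 K := Yt φ ![-1, 0, 0, 0, 0, 0] (u / 2 / 2) * Yt φ ![0, 0, 1, 0, 0, 0] (u / 2 / 2) with hDd
  have hD : D ∈ TwistedGroup B6 φ :=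
    Subgroup.mul_mem _ (Y_tw (Sh_ne cm.1) _) (Y_tw (Sh_ne cm.2.1) _)
  have hDC : D * D = Yt φ ![-1, 0, 0, 0, 0, 0] (u / 2) * Yt φ ![0, 0, 1, 0, 0, 0] (u / 2) := by
    have e : u / 2 / 2 + u / 2 / 2 = u / 2 := by rw [← two_mul, mul_div_cancel₀ _ h2]
    rw [hDd, YY_sq cm, e]
  refine admT hφ h2 (v0 := va) (by decide +kernel) sta stb stc std cert hD hDC ?_ ?_ hm ?_
    fun L ha hb hc h0 => gen hφ h2 hu hs L ha hb hc h0
  · exact inv_swapY cfc (by decide +kernel) _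
  · exact inv_fixY cfa cm (by decide +kernel) _
  · exact YY_pow cm hm0 _

end H41Chev.Todd
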