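import Mathlib
import Pool.Agent.H.MP_0335f8_al.helper41t.TOdd
import Pool.Agent.H.MP_0335f8_cl.Chev

/-!
# Products of root elements in characteristic two: a verified rewriting
-/

namespace H41Chev

variable {K : Type*} [Field K] {φ : K ≃+* K}

/-- a list of roots with two exponents -/
abbrev XL : Type := List ((Fin 6 → ℤ) × ℕ × ℕ)

/-- the product of root elements with parameters `u ^ i * w ^ j` -/
def XP (u w : K) : XL → GLM B6 K
  | [] => 1
  | e :: l => X good6t e.1 (u ^ e.2.1 * w ^ e.2.2) * XP u w l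

theorem XP_append (u w : K) (l l' : XL) : (XP u w (l ++ l') : GLM B6 K) = XP u w l * XP u w l' := by
  induction l with
  | nil => simp [XP]
  | cons e l ih =>
    show X good6t e.1 _ * XP u w (l ++ l') = X good6t e.1 _ * XP u w l * XP u w l'
    rw [ih, mul_assoc]

theorem XP_reverse (hK : (2 : K) = 0) (u w : K) (l : XL) :
    (XP u w l.reverse : GLM B6 K) = (XP u w l)⁻¹ := by
  induction l with
  | nil => simp [XP]
  | cons e l ih =>
    rw [List.reverse_cons, XP_append, ih]
    show (XP u w l)⁻¹ * (X good6t e.1 _ * 1) = (X good6t e.1 _ * XP u w l)⁻¹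
    rw [mul_inv_rev, mul_one, inv_eq_of_mul_eq_one_left (X_two good6t hK e.1 _)]

/-- one rewriting step: position and kind (`0`: exchange, `1`: commutator, `2`: cancellation) -/
def stp (l : XL) (o : ℕ × ℕ) : XL :=
  match l.drop o.1 with
  | e :: f :: t =>
    if o.2 = 0 then (if 0 ≤ ip B6 e.1 f.1 then l.take o.1 ++ f :: e :: t else l)
    else if o.2 = 1 then
      (if ip B6 e.1 f.1 = -1 then
        l.take o.1 ++ (e.1 + f.1, e.2.1 + f.2.1, e.2.2 + f.2.2) :: f :: e :: t else l)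
    else (if e = f then l.take o.1 ++ t else l)
  | _ => l

/-- a sequence of rewriting steps -/
def rw6 : List (ℕ × ℕ) → XL → XL
  | [], l => l
  | o :: os, l => rw6 os (stp l o)

/-- all entries are roots -/
def Rts (l : XL) : Prop := ∀ e ∈ l, ip B6 e.1 e.1 = 2

instance (l : XL) : Decidable (Rts l) := by unfold Rts; infer_instance

theorem Rts_append {l l' : XL} (h : Rts l) (h' : Rts l') : Rts (l ++ l') := by
  intro e he
  rcases List.mem_append.1 he with h1 | h1
  · exact h e h1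
  · exact h' e h1

theorem Rts_reverse {l : XL} (h : Rts l) : Rts l.reverse := fun e he => h e (List.mem_reverse.1 he)

theorem stp_ok (hK : (2 : K) = 0) (u w : K) {l : XL} (h : Rts l) (o : ℕ × ℕ) :
    (XP u w (stp l o) : GLM B6 K) = XP u w l ∧ Rts (stp l o) := by
  have hl : l = l.take o.1 ++ l.drop o.1 := (List.take_append_drop _ _).symm
  rcases hd : l.drop o.1 with _ | ⟨e, _ | ⟨f, t⟩⟩
  · have : stp l o = l := by unfold stp; rw [hd]
    rw [this]; exact ⟨rfl, h⟩
  · have : stp l o = l := by unfold stp; rw [hd]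
    rw [this]; exact ⟨rfl, h⟩
  · have hs : stp l o = if o.2 = 0 then (if 0 ≤ ip B6 e.1 f.1 then l.take o.1 ++ f :: e :: t else l)
      else if o.2 = 1 then
        (if ip B6 e.1 f.1 = -1 then
          l.take o.1 ++ (e.1 + f.1, e.2.1 + f.2.1, e.2.2 + f.2.2) :: f :: e :: t else l)
      else (if e = f then l.take o.1 ++ t else l) := by
      unfold stp; rw [hd]
    rw [hd] at hl
    have ht : ∀ x ∈ l.take o.1, ip B6 x.1 x.1 = 2 := fun x hx => h x (List.mem_of_mem_take hx)
    have he : ip B6 e.1 e.1 = 2 := h e (by rw [hl]; simp)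
    have hf : ip B6 f.1 f.1 = 2 := h f (by rw [hl]; simp)
    have htt : ∀ x ∈ t, ip B6 x.1 x.1 = 2 := fun x hx => h x (by rw [hl]; simp [hx])
    have key : ∀ m : XL, (XP u w m : GLM B6 K) = XP u w (e :: f :: t) → Rts m →
        (XP u w (l.take o.1 ++ m) : GLM B6 K) = XP u w l ∧ Rts (l.take o.1 ++ m) := by
      intro m h1 h2
      refine ⟨?_, Rts_append ht h2⟩
      conv_rhs => rw [hl]
      rw [XP_append, XP_append, h1]
    rw [hs]
    split_ifs with h1 h2 h2 h3 h3
    · refine key _ ?_ ?_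
      · show X good6t f.1 _ * (X good6t e.1 _ * XP u w t) = X good6t e.1 _ * (X good6t f.1 _ * XP u w t)
        rw [← mul_assoc, ← X_comm good6t h2, mul_assoc]
      · intro x hx
        simp only [List.mem_cons] at hx
        rcases hx with rfl | rfl | hx
        · exact hf
        · exact he
        · exact htt x hx
    · exact ⟨rfl, h⟩
    · refine key _ ?_ ?_
      · show X good6t (e.1 + f.1) (u ^ (e.2.1 + f.2.1) * w ^ (e.2.2 + f.2.2)) *
          (X good6t f.1 _ * (X good6t e.1 _ * XP u w t)) =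
          X good6t e.1 _ * (X good6t f.1 _ * XP u w t)
        have c := X_com (K := K) good6t he hf h3 (u ^ e.2.1 * w ^ e.2.2) (u ^ f.2.1 * w ^ f.2.2)
        rw [cast_one (eps_sq _ _) hK, one_mul] at c
        have e1 : u ^ (e.2.1 + f.2.1) * w ^ (e.2.2 + f.2.2) =
          u ^ e.2.1 * w ^ e.2.2 * (u ^ f.2.1 * w ^ f.2.2) := by ring
        rw [e1, ← mul_assoc (X good6t e.1 _), c]
        group
      · intro x hx
        simp only [List.mem_cons] at hx
        rcases hx with rfl | rfl | rfl | hx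
        · exact root_add good6t he hf h3
        · exact hf
        · exact he
        · exact htt x hx
    · exact ⟨rfl, h⟩
    · refine key _ ?_ htt
      subst h3
      show XP u w t = X good6t e.1 _ * (X good6t e.1 _ * XP u w t)
      rw [← mul_assoc, X_two good6t hK, one_mul]
    · exact ⟨rfl, h⟩

theorem rw6_ok (hK : (2 : K) = 0) (u w : K) {l : XL} (h : Rts l) (os : List (ℕ × ℕ)) :
    (XP u w (rw6 os l) : GLM B6 K) = XP u w l ∧ Rts (rw6 os l) := by
  induction os generalizing l with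
  | nil => exact ⟨rfl, h⟩
  | cons o os ih =>
    obtain ⟨h1, h2⟩ := stp_ok (K := K) hK u w h o
    obtain ⟨h3, h4⟩ := ih h2
    exact ⟨h3.trans h1, h4⟩

/-- the image of a list under a word -/
def wm (w : Wd 6) (l : XL) : XL := l.map fun e => (wv B6 w e.1, e.2)

theorem NN_XP (hK : (2 : K) = 0) (u v : K) {w : Wd 6} (hw : wok B6 w) (l : XL) :
    (NN good6t w * XP u v l : GLM B6 K) = XP u v (wm w l) * NN good6t w := by
  induction l with
  | nil => show NN good6t w * 1 = 1 * NN good6t w; rw [mul_one, one_mul]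
  | cons e l ih =>
    show NN good6t w * (X good6t e.1 (u ^ e.2.1 * v ^ e.2.2) * XP u v l) =
      X good6t (wv B6 w e.1) (u ^ e.2.1 * v ^ e.2.2) * XP u v (wm w l) * NN good6t w
    rw [← mul_assoc, NN_X good6t hw, cast_one (ws_sq w _) hK, one_mul, mul_assoc, ih, mul_assoc]

/-- the product of the list lies in `L` -/
def TP (L : Subgroup (GLM B6 K)) (u w : K) (l : XL) : Prop := XP u w l ∈ L

variable {L : Subgroup (GLM B6 K)}

theorem TP_conj (hK : (2 : K) = 0) {u v : K} {w : Wd 6} (hw : wok B6 w)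
    (hL : NN good6t w ∈ L) {l l' : XL} (h : TP L u v l) (e : wm w l = l') : TP L u v l' := by
  have h2 := L.mul_mem (L.mul_mem hL h) (L.inv_mem hL)
  rw [NN_XP hK u v hw, mul_assoc, mul_inv_cancel, mul_one, e] at h2
  exact h2

theorem TP_com (hK : (2 : K) = 0) {u v : K} {x y z : XL} (h1 : TP L u v x) (h2 : TP L u v y)
    (os : List (ℕ × ℕ)) (e : Rts x ∧ Rts y ∧ rw6 os (x ++ y ++ x.reverse ++ y.reverse) = z) :
    TP L u v z := by
  obtain ⟨rx, ry, e⟩ := e
  have h3 := L.mul_mem (L.mul_mem (L.mul_mem h1 h2) (L.inv_mem h1)) (L.inv_mem h2)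
  have h4 := (rw6_ok (K := K) hK u v
    (Rts_append (Rts_append (Rts_append rx ry) (Rts_reverse rx)) (Rts_reverse ry)) os).1
  rw [XP_append, XP_append, XP_append, XP_reverse hK, XP_reverse hK, e] at h4
  unfold TP
  rw [h4]
  exact h3

/-- equality of two products -/
theorem XP_eq (hK : (2 : K) = 0) (u w : K) {l l' : XL} (os os' : List (ℕ × ℕ))
    (e : Rts l ∧ Rts l' ∧ rw6 os l = rw6 os' l') : (XP u w l : GLM B6 K) = XP u w l' := by
  obtain ⟨h, h', e⟩ := e
  rw [← (rw6_ok (K := K) hK u w h os).1, e, (rw6_ok (K := K) hK u w h' os').1]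

theorem SS_of_TP {u : K} {v v' : Fin 6 → ℤ} {i j : ℕ}
    (h : TP L u (φ u) [(v, i, j), (v', j, i)]) (hφ : ∀ x, φ (φ x) = x) (e : tau v = v') :
    SS φ L v (u ^ i * φ u ^ j) := by
  subst e
  unfold TP at h
  have : XP u (φ u) [(v, i, j), (tau v, j, i)] = Yt φ v (u ^ i * φ u ^ j) := by
    show X good6t v (u ^ i * φ u ^ j) * (X good6t (tau v) (u ^ j * φ u ^ i) * 1) = _
    unfold Yt
    rw [mul_one, map_mul, map_pow, map_pow, hφ, mul_comm (φ u ^ i)]
  rw [this] at h
  exact h

/-- the root element lies in `L` -/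
def LL (L : Subgroup (GLM B6 K)) (v : Fin 6 → ℤ) (m : K) : Prop := X good6t v m ∈ L

theorem LL_of_TP {u w : K} {v : Fin 6 → ℤ} {i j : ℕ} (h : TP L u w [(v, i, j)]) :
    LL L v (u ^ i * w ^ j) := by
  have : XP u w [(v, i, j)] = X good6t v (u ^ i * w ^ j) := by
    show X good6t v (u ^ i * w ^ j) * 1 = _
    rw [mul_one]
  unfold TP at h
  rw [this] at h
  exact h

theorem LL_conj {w : Wd 6} (h : Cf w) (hL : NN good6t w ∈ L) {v v' : Fin 6 → ℤ} {m : K}
    (h1 : LL L v m) (e : wv B6 w v = v') : LL L v' m := e ▸ conj_X good6t h.1 hL h1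

/-- the loop rule for fixed roots -/
theorem FL_loop {v d d' : Fin 6 → ℤ} {m a b : K} (hm : m ≠ 0) (fm : φ m = m)
    (hs : ∀ t, φ t = t → t ∈ AddSubgroup.closure (Set.range fun i : ℕ => (a * b) ^ i))
    (h3 : LL L v m) (h1 : LL L d a) (h2 : LL L d' b)
    (e : ip B6 v v = 2 ∧ ip B6 d d = 2 ∧ ip B6 v d = -1 ∧ -d = d') : FL φ L v := by
  obtain ⟨hv, hd, hvd, rfl⟩ := e
  have key : ∀ i : ℕ, X good6t v (m * (a * b) ^ i) ∈ L := by
    intro i
    induction i with
    | zero => rw [pow_zero, mul_one]; exact h3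
    | succ i ih =>
      have := Lv_step good6t hv hd hvd h1 h2 ih
      rwa [mul_assoc, ← pow_succ] at this
  have h4 : AddSubgroup.closure (Set.range fun i : ℕ => (a * b) ^ i) ≤
      (par good6t L v).comap (AddMonoidHom.mulLeft m) := by
    rw [AddSubgroup.closure_le]
    rintro _ ⟨i, rfl⟩
    exact key i
  intro t ht
  have := h4 (hs (t / m) (by rw [map_div₀, ht, fm]))
  have h5 : X good6t v (m * (t / m)) ∈ L := this
  rwa [mul_div_cancel₀ _ hm] at h5

theorem FL_sum' {z w s : Fin 6 → ℤ} {m : K} (hm : m ≠ 0) (fm : φ m = m) (h1 : FL φ L z)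
    (h2 : LL L w m) (e : Sm B6 z w s) : FL φ L s := by
  obtain ⟨hz, hw, e1, rfl⟩ := e
  intro t ht
  have := com_X good6t hz hw e1 (h1 (t / m) (by rw [map_div₀, ht, fm])) h2
  rwa [div_mul_cancel₀ _ hm] at this

/-- all multiples of `m` by fixed elements are parameters -/
def KS (φ : K ≃+* K) (L : Subgroup (GLM B6 K)) (v : Fin 6 → ℤ) (m : K) : Prop :=
  ∀ s : K, φ s = s → SS φ L v (s * m)

theorem KS_SS {v : Fin 6 → ℤ} {m : K} (h : KS φ L v m) : SS φ L v m := by
  have := h 1 (map_one φ)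
  rwa [one_mul] at this

theorem KS_rule (hφ : ∀ x, φ (φ x) = x) {z w q s : Fin 6 → ℤ} {m : K} (h1 : FL φ L z)
    (h2 : FL φ L q) (h3 : SS φ L w m)
    (e : Lo z ∧ Sh w ∧ ip B6 z w = -1 ∧ w + (z + tau w) = q ∧ z + w = s) : KS φ L s m := by
  obtain ⟨lz, sw, e1, rfl, rfl⟩ := e
  intro s hs
  have c := Z_com_Y (φ := φ) lz.1 sw.1 sw.2 lz.2 e1 hs m
  have q1 := h1 s hs
  have q3 : X good6t (w + (z + tau w)) ((eps B6 w (z + tau w) : K) * m *
      ((eps B6 z w : K) * s * φ m)) ∈ L := by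
    refine h2 _ ?_
    simp only [map_mul, map_intCast, hφ, hs]
    ring
  have q4 := L.mul_mem (L.mul_mem (L.mul_mem (L.mul_mem q1 h3) (L.inv_mem q1))
    (L.inv_mem h3)) (L.inv_mem q3)
  rw [c] at q4
  have e5 : ∀ a b y z : GLM B6 K, a * b * y * z * z⁻¹ * y⁻¹ * b⁻¹ = a :=
    fun a b y z => by group
  rw [e5, mul_assoc] at q4
  have sv : Sh (z + w) := by
    refine ⟨root_add good6t lz.1 sw.1 e1, ?_⟩
    rw [flip_add, lz.2, ip_add_left, ip_add_right, ip_add_right, lz.1, sw.2,
      ip_comm good6t w z, e1, ← ip_flip', lz.2, e1]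
    norm_num
  exact SS_sign sv (eps_sq (A := B6) z w) q4

theorem FS_of_KS {v : Fin 6 → ℤ} {m1 m2 : K} (h1 : KS φ L v m1) (h2 : KS φ L v m2)
    (hs : ∀ x : K, ∃ s t : K, φ s = s ∧ φ t = t ∧ x = s * m1 + t * m2)
    (hv : Sh v) : FS φ L v := by
  intro x
  obtain ⟨s, t, a, b, rfl⟩ := hs x
  rw [← Y_add hv.2]
  exact L.mul_mem (h1 s a) (h2 t b)

end H41Chev
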