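import Mathlib
import Pool.Agent.H.MP_0335f8_al.helper41t.TTwo

/-!
# Conjugacies in the twisted groups, characteristic two
-/

namespace H41Chev

variable {K : Type*} [Field K] {φ : K ≃+* K}

theorem X_Y_comm {z s : Fin 6 → ℤ} (lz : Lo z) (h : ip B6 z s = 0) (t x : K) :
    X good6t z t * Yt φ s x = Yt φ s x * X good6t z t := by
  have h' : ip B6 z (tau s) = 0 := by rw [← ip_flip', lz.2, h]
  have c1 := X_comm good6t (u := z) (v := s) (by rw [h]) t x
  have c2 := X_comm good6t (u := z) (v := tau s) (by rw [h']) t (φ x)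
  unfold Yt
  rw [← mul_assoc, c1, mul_assoc, c2, mul_assoc]

theorem nn_pair {r : Fin 6 → ℤ} (h : Sh r) :
    (nn good6t r * nn good6t (tau r) : GLM B6 K) = Yt φ r 1 * Yt φ (-r) 1 * Yt φ r 1 := by
  have o := h.2
  unfold nn Yt
  rw [map_one, flip_neg]
  have c1 := X_comm (K := K) good6t (u := tau r) (v := r) (by rw [ip_flip', o]) 1 1
  have c2 := X_comm (K := K) good6t (u := tau r) (v := -r)
    (by rw [ip_neg_right, ip_flip', o]; norm_num) 1 1
  have c3 := X_comm (K := K) good6t (u := -tau r) (v := r)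
    (by rw [ip_neg_left, ip_flip', o]; norm_num) 1 1
  symm
  calc (X good6t r 1 * X good6t (tau r) 1 * (X good6t (-r) 1 * X good6t (-tau r) 1) *
        (X good6t r 1 * X good6t (tau r) 1) : GLM B6 K)
      = X good6t r 1 * (X good6t (tau r) 1 * X good6t (-r) 1) *
        (X good6t (-tau r) 1 * X good6t r 1) * X good6t (tau r) 1 := by group
    _ = X good6t r 1 * X good6t (-r) 1 * (X good6t (tau r) 1 * X good6t r 1) *
        X good6t (-tau r) 1 * X good6t (tau r) 1 := by rw [c2, c3]; group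
    _ = _ := by rw [c1]; group

theorem Y_two (hK : (2 : K) = 0) {s : Fin 6 → ℤ} (h : Sh s) (x : K) :
    Yt φ s x * Yt φ s x = 1 := by
  rw [Y_add h.2, show x + x = 0 by linear_combination x * hK, Y_zero]

theorem XY_two (hK : (2 : K) = 0) {z s : Fin 6 → ℤ} (lz : Lo z) (ss : Sh s) (h : ip B6 z s = 0)
    (t x : K) : X good6t z t * Yt φ s x * (X good6t z t * Yt φ s x) = 1 := by
  have c := X_Y_comm (φ := φ) lz h t x
  calc X good6t z t * Yt φ s x * (X good6t z t * Yt φ s x)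
      = X good6t z t * (Yt φ s x * X good6t z t) * Yt φ s x := by group
    _ = (X good6t z t * X good6t z t) * (Yt φ s x * Yt φ s x) := by rw [← c]; group
    _ = 1 := by rw [X_two good6t hK, Y_two hK ss, one_mul]

/-- the monomial involution is conjugate to a product of two commuting root elements -/
theorem mono_eq (hK : (2 : K) = 0) {z s : Fin 6 → ℤ} (lz : Lo z) (ss : Sh s)
    (h : ip B6 z s = 0) : (NN good6t ((ex [z, s]).map (Prod.mk true)) : GLM B6 K) =
      (X good6t z 1 * Yt φ s 1) * (X good6t (-z) 1 * Yt φ (-s) 1) * (X good6t z 1 * Yt φ s 1)⁻¹ := by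
  have e : ex [z, s] = [z, s, tau s] := by
    rw [ex_cons, ex_cons, ex_nil, if_pos lz.2, if_neg (Sh_ne ss)]; rfl
  have e2 : (NN good6t ((ex [z, s]).map (Prod.mk true)) : GLM B6 K) =
      nn good6t z * (nn good6t s * nn good6t (tau s)) := by
    rw [e]
    show nn good6t z * (nn good6t s * (nn good6t (tau s) * 1)) = _
    rw [mul_one]
  rw [e2, nn_pair (φ := φ) ss, inv_eq_of_mul_eq_one_left (XY_two (φ := φ) hK lz ss h 1 1)]
  have hn : ip B6 (-z) s = 0 := by rw [ip_neg_left, h, neg_zero]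
  have hn2 : ip B6 z (-s) = 0 := by rw [ip_neg_right, h, neg_zero]
  have c1 := X_Y_comm (φ := φ) lz h 1 1
  have c2 := X_Y_comm (φ := φ) (Lo_neg lz) hn 1 1
  have c3 := X_Y_comm (φ := φ) lz hn2 1 1
  unfold nn
  symm
  calc X good6t z 1 * Yt φ s 1 * (X good6t (-z) 1 * Yt φ (-s) 1) * (X good6t z 1 * Yt φ s 1)
      = X good6t z 1 * (Yt φ s 1 * X good6t (-z) 1) * (Yt φ (-s) 1 * X good6t z 1) *
        Yt φ s 1 := by group
    _ = X good6t z 1 * X good6t (-z) 1 * (Yt φ s 1 * X good6t z 1) * Yt φ (-s) 1 *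
        Yt φ s 1 := by rw [← c2, ← c3]; group
    _ = _ := by rw [← c1]; group

theorem ex_roots {l : List (Fin 6 → ℤ)} (h : ∀ r ∈ l, ip B6 r r = 2) :
    Cf ((ex l).map (Prod.mk true)) := by
  induction l with
  | nil =>
    refine ⟨fun _ h => absurd h (by simp [ex_nil]), fun j => rfl, fun j => rfl⟩
  | cons r l ih =>
    have ih := ih fun s hs => h s (by simp [hs])
    have h1 := Cf_ex (h r (by simp))
    have e : (ex (r :: l)).map (Prod.mk true) =
        (ex [r]).map (Prod.mk true) ++ (ex l).map (Prod.mk true) := by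
      rw [ex_cons r l, ex_cons r [], ex_nil, List.append_nil, List.map_append]
    have wapp : ∀ (w w' : Wd 6) (v), wv B6 (w ++ w') v = wv B6 w (wv B6 w' v) ∧
        ws B6 (w ++ w') v = ws B6 w (wv B6 w' v) * ws B6 w' v := by
      intro w w' v
      induction w with
      | nil => exact ⟨rfl, (one_mul _).symm⟩
      | cons l w ih =>
        obtain ⟨b, r⟩ := l
        cases b
        · refine ⟨ih.1, ?_⟩
          show sg (ip B6 r (wv B6 (w ++ w') v)) * ws B6 (w ++ w') v =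
            sg (ip B6 r (wv B6 w (wv B6 w' v))) * ws B6 w (wv B6 w' v) * ws B6 w' v
          rw [ih.1, ih.2, mul_assoc]
        · constructor
          · show rf B6 r (wv B6 (w ++ w') v) = rf B6 r (wv B6 w (wv B6 w' v))
            rw [ih.1]
          · show eta B6 r (wv B6 (w ++ w') v) * ws B6 (w ++ w') v =
              eta B6 r (wv B6 w (wv B6 w' v)) * ws B6 w (wv B6 w' v) * ws B6 w' v
            rw [ih.1, ih.2, mul_assoc]
    rw [e]
    refine ⟨wok_append h1.1 ih.1, fun j => ?_, fun j => ?_⟩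
    · rw [(wapp _ _ _).1, (wapp _ _ _).1, (Cf_all ih _).1, (Cf_all h1 _).1]
    · rw [(wapp _ _ _).2, (wapp _ _ _).2, (Cf_all ih _).1, (Cf_all ih _).2, (Cf_all h1 _).2]

theorem word_conj (hφ : ∀ x, φ (φ x) = x) (hK : (2 : K) = 0) {l : List (Fin 6 → ℤ)}
    (h : ∀ r ∈ l, ip B6 r r = 2) {z s z' s' : Fin 6 → ℤ}
    (h1 : wv B6 ((ex l).map (Prod.mk true)) z = z') (h2 : wv B6 ((ex l).map (Prod.mk true)) s = s')
    (t x : K) : CjH (TwistedGroup B6 φ) (X good6t z t * Yt φ s x) (X good6t z' t * Yt φ s' x) := by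
  subst h1 h2
  have hc := ex_roots h
  refine ⟨_, NNe_mem hφ h, ?_⟩
  rw [← mul_assoc, NN_X good6t hc.1, mul_assoc (X good6t _ _), NN_Y hc,
    cast_one (ws_sq _ _) hK, cast_one (ws_sq _ _) hK, one_mul, one_mul]
  group

/-! ### torus elements -/

theorem HHr_mem (hφ : ∀ x, φ (φ x) = x) {z w : Fin 6 → ℤ} (lz : Lo z) (hw : ip B6 z w = 1)
    {t : Kˣ} (ht : φ (t : K) = t) : HH B6 z t ∈ TwistedGroup B6 φ := by
  have h := HH_rel good6t lz.1 hw t
  have hi : φ ((t⁻¹ : Kˣ) : K) = ((t⁻¹ : Kˣ) : K) := by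
    rw [Units.val_inv_eq_inv_val, map_inv₀, ht]
  have h1 : HH B6 z t * nn good6t z ∈ TwistedGroup B6 φ := by
    rw [← h]
    exact Subgroup.mul_mem _ (Subgroup.mul_mem _ (X_tw lz.2 ht) (X_tw (Lo_neg lz).2 hi))
      (X_tw lz.2 ht)
  have h2 : nn good6t z ∈ TwistedGroup B6 φ := by
    unfold nn
    exact Subgroup.mul_mem _ (Subgroup.mul_mem _ (X_tw lz.2 (map_one φ))
      (X_tw (Lo_neg lz).2 (map_one φ))) (X_tw lz.2 (map_one φ))
  have h3 := Subgroup.mul_mem _ h1 (Subgroup.inv_mem _ h2)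
  rwa [mul_assoc, mul_inv_cancel, mul_one] at h3

theorem HHp_mem {s w : Fin 6 → ℤ} (ss : Sh s)
    (hw : ip B6 s w = 1) {t t' : Kˣ} (ht : (t' : K) = φ (t : K)) :
    HH B6 s t * HH B6 (tau s) t' ∈ TwistedGroup B6 φ := by
  have hf : ip B6 (tau s) (tau s) = 2 := by rw [ip_flip, ss.1]
  have o := ss.2
  have h1 := HH_rel good6t ss.1 hw t
  have h2 := HH_rel good6t hf (by rw [ip_flip, hw] : ip B6 (tau s) (tau w) = 1) t'
  have hi : ((t'⁻¹ : Kˣ) : K) = φ ((t⁻¹ : Kˣ) : K) := by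
    rw [Units.val_inv_eq_inv_val, Units.val_inv_eq_inv_val, map_inv₀, ht]
  have h3 : (Yt φ s (t : K) * Yt φ (-s) ((t⁻¹ : Kˣ) : K) * Yt φ s (t : K) : GLM B6 K) =
      (HH B6 s t * nn good6t s) * (HH B6 (tau s) t' * nn good6t (tau s)) := by
    rw [← h1, ← h2]
    unfold Yt
    rw [flip_neg, ← ht, ← hi]
    have c1 := X_comm (K := K) good6t (u := tau s) (v := s) (by rw [ip_flip', o]) (t' : K) (t : K)
    have c2 := X_comm (K := K) good6t (u := tau s) (v := -s)
      (by rw [ip_neg_right, ip_flip', o]; norm_num) (t' : K) ((t⁻¹ : Kˣ) : K)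
    have c3 := X_comm (K := K) good6t (u := -tau s) (v := s)
      (by rw [ip_neg_left, ip_flip', o]; norm_num) ((t'⁻¹ : Kˣ) : K) (t : K)
    generalize (X good6t s (t : K) : GLM B6 K) = x1 at *
    generalize (X good6t (tau s) (t' : K) : GLM B6 K) = x2 at *
    generalize (X good6t (-s) ((t⁻¹ : Kˣ) : K) : GLM B6 K) = x3 at *
    generalize (X good6t (-tau s) ((t'⁻¹ : Kˣ) : K) : GLM B6 K) = x4 at *
    calc x1 * x2 * (x3 * x4) * (x1 * x2)
        = x1 * (x2 * x3) * (x4 * x1) * x2 := by group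
      _ = x1 * x3 * (x2 * x1) * x4 * x2 := by rw [c2, c3]; group
      _ = _ := by rw [c1]; group
  have hne := Sh_ne ss
  have hne' := Sh_ne (Sh_neg ss)
  have h4 : (HH B6 s t * nn good6t s) * (HH B6 (tau s) t' * nn good6t (tau s)) ∈
      TwistedGroup B6 φ := by
    rw [← h3]
    exact Subgroup.mul_mem _ (Subgroup.mul_mem _ (Y_tw hne _) (Y_tw hne' _)) (Y_tw hne _)
  have h5 : (nn good6t s * nn good6t (tau s) : GLM B6 K) ∈ TwistedGroup B6 φ := by
    rw [nn_pair (φ := φ) ss]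
    exact Subgroup.mul_mem _ (Subgroup.mul_mem _ (Y_tw hne _) (Y_tw hne' _)) (Y_tw hne _)
  have h6 : (nn good6t s * HH B6 (tau s) t' : GLM B6 K) = HH B6 (tau s) t' * nn good6t s := by
    rw [nn_HH good6t ss.1]
    have : rf B6 s (tau s) = tau s := by unfold rf; rw [o, zero_smul, sub_zero]
    rw [this]
  have h7 := Subgroup.mul_mem _ h4 (Subgroup.inv_mem _ h5)
  have h8 : (HH B6 s t * nn good6t s) * (HH B6 (tau s) t' * nn good6t (tau s)) *
      (nn good6t s * nn good6t (tau s))⁻¹ = HH B6 s t * HH B6 (tau s) t' := by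
    calc (HH B6 s t * nn good6t s) * (HH B6 (tau s) t' * nn good6t (tau s)) *
          (nn good6t s * nn good6t (tau s))⁻¹
        = HH B6 s t * (nn good6t s * HH B6 (tau s) t') * (nn good6t s)⁻¹ := by group
      _ = _ := by rw [h6]; group
  rwa [h8] at h7

theorem nbr6 : ∀ i : Fin 6, ∃ j : Fin 6,
    ip B6 (Pi.single i 1) (Pi.single j 1) = -1 := by decide +kernel

theorem scale_conj (hφ : ∀ x, φ (φ x) = x) (hK : (2 : K) = 0) [Finite K] {u : K} (hu : u ≠ 0)
    {z s : Fin 6 → ℤ} (lz : Lo z) (ss : Sh s) (h : ip B6 z s = 0) :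
    CjH (TwistedGroup B6 φ) (X good6t z 1 * Yt φ s 1) (X good6t z (u * φ u) * Yt φ s u) := by
  obtain ⟨q, hq⟩ := sq_unit hK hu 1
  rw [pow_one] at hq
  have hq0 : φ (q : K) ≠ 0 := fun h => q.ne_zero (by rw [← hφ (q : K), h, map_zero])
  set q' : Kˣ := Units.mk0 (φ (q : K)) hq0 with hq'
  have eq' : (q' : K) = φ (q : K) := rfl
  set r : Kˣ := q * q' with hr
  have er : (r : K) = q * φ (q : K) := by rw [hr, Units.val_mul, eq']
  have fr : φ (r : K) = r := by rw [er, map_mul, hφ, mul_comm]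
  obtain ⟨w1, hw1⟩ := hroot_of good6t nbr6 z lz.1
  obtain ⟨w2, hw2⟩ := hroot_of good6t nbr6 s ss.1
  have m1 := HHr_mem hφ lz hw1 fr
  have m2 := HHp_mem (φ := φ) ss hw2 eq'
  have h' : ip B6 z (tau s) = 0 := by rw [← ip_flip', lz.2, h]
  have k1 : ip B6 s z = 0 := by rw [ip_comm good6t, h]
  have k2 : ip B6 (tau s) z = 0 := by rw [ip_comm good6t, h']
  have k3 : ip B6 (tau s) s = 0 := by rw [ip_flip', ss.2]
  have k4 : ip B6 (tau s) (tau s) = 2 := by rw [ip_flip, ss.1]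
  have a1 := HH_X (K := K) good6t z z r 1
  have a2 := HH_X (K := K) good6t z s r
  have a3 := HH_X (K := K) good6t z (tau s) r
  have b1 := HH_X (K := K) good6t s z q
  have b2 := HH_X (K := K) good6t s s q 1
  have b3 := HH_X (K := K) good6t s (tau s) q
  have c1 := HH_X (K := K) good6t (tau s) z q'
  have c2 := HH_X (K := K) good6t (tau s) s q'
  have c3 := HH_X (K := K) good6t (tau s) (tau s) q' 1
  simp only [lz.1, h, h', k1, k2, k3, k4, ss.1, ss.2, zpow_zero, Units.val_one, one_mul,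
    mul_one] at a1 a2 a3 b1 b2 b3 c1 c2 c3
  have e1 : ((r ^ (2 : ℤ) : Kˣ) : K) = u * φ u := by
    rw [show (r ^ (2 : ℤ) : Kˣ) = r ^ 2 from rfl, Units.val_pow_eq_pow_val, er, mul_pow, hq,
      ← map_pow, hq]
  have e2 : ((q ^ (2 : ℤ) : Kˣ) : K) = u := by
    rw [show (q ^ (2 : ℤ) : Kˣ) = q ^ 2 from rfl, Units.val_pow_eq_pow_val, hq]
  have e3 : ((q' ^ (2 : ℤ) : Kˣ) : K) = φ u := by
    rw [show (q' ^ (2 : ℤ) : Kˣ) = q' ^ 2 from rfl, Units.val_pow_eq_pow_val, eq', ← map_pow, hq]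
  rw [e1] at a1
  rw [e2] at b2
  rw [e3] at c3
  refine ⟨HH B6 z r * (HH B6 s q * HH B6 (tau s) q'), Subgroup.mul_mem _ m1 m2, ?_⟩
  unfold Yt
  rw [map_one]
  have key : HH B6 z r * (HH B6 s q * HH B6 (tau s) q') *
      (X good6t z 1 * (X good6t s 1 * X good6t (tau s) 1)) =
      X good6t z (u * φ u) * (X good6t s u * X good6t (tau s) (φ u)) *
      (HH B6 z r * (HH B6 s q * HH B6 (tau s) q')) := by
    calc HH B6 z r * (HH B6 s q * HH B6 (tau s) q') *
          (X good6t z 1 * (X good6t s 1 * X good6t (tau s) 1))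
        = HH B6 z r * HH B6 s q * (HH B6 (tau s) q' * X good6t z 1) * X good6t s 1 *
          X good6t (tau s) 1 := by group
      _ = HH B6 z r * (HH B6 s q * X good6t z 1) * (HH B6 (tau s) q' * X good6t s 1) *
          X good6t (tau s) 1 := by rw [c1]; group
      _ = (HH B6 z r * X good6t z 1) * (HH B6 s q * X good6t s 1) *
          (HH B6 (tau s) q' * X good6t (tau s) 1) := by rw [b1, c2]; group
      _ = X good6t z (u * φ u) * (HH B6 z r * X good6t s u) *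
          (HH B6 s q * X good6t (tau s) (φ u)) * HH B6 (tau s) q' := by
          rw [a1, b2, c3]; group
      _ = X good6t z (u * φ u) * X good6t s u * (HH B6 z r * X good6t (tau s) (φ u)) *
          HH B6 s q * HH B6 (tau s) q' := by rw [a2, b3]; group
      _ = _ := by rw [a3]; group
  rw [key]
  group

/-! ### the field -/

theorem field_two [Finite K] (hφ : ∀ x, φ (φ x) = x) (hK : (2 : K) = 0) {u : K} (hu : u ≠ 0)
    (hg : ∀ x : K, x ≠ 0 → ∃ k : ℕ, x = u ^ k) :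
    (∀ t, φ t = t →
      t ∈ AddSubgroup.closure (Set.range fun i : ℕ => (u ^ 4 * φ u ^ 4 * (u ^ 4 * φ u ^ 4)) ^ i)) ∧
    (∀ x : K, ∃ s t : K, φ s = s ∧ φ t = t ∧
      x = s * (u ^ 7 * φ u ^ 7) + t * (u ^ 7 * φ u ^ 6)) := by
  have hv : φ u ≠ 0 := fun h => hu (by rw [← hφ u, h, map_zero])
  have inj : ∀ a b : K, a ^ 2 = b ^ 2 → a = b := by
    intro a b h
    have : (a - b) ^ 2 = 0 := by linear_combination h + (b ^ 2 - a * b) * hK
    exact sub_eq_zero.1 (pow_eq_zero_iff (two_ne_zero) |>.1 this)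
  -- fixed elements are norms
  have hnorm : ∀ t, φ t = t → ∃ a, a * φ a = t := by
    intro t ht
    by_cases hne : ∃ a, φ a ≠ a
    · exact H47Cl.norm_surj K (φ : K →+* K) hφ hne t ht
    · push Not at hne
      obtain ⟨a, ha⟩ := sq_two hK t
      exact ⟨a, by rw [hne a, ← ha]; ring⟩
  have hsq : ∀ t, φ t = t → ∃ y, φ y = y ∧ y ^ 2 = t := by
    intro t ht
    obtain ⟨y, hy⟩ := sq_two hK t
    refine ⟨y, inj _ _ ?_, hy⟩
    rw [← map_pow, hy, ht]
  constructor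
  · intro t ht
    obtain ⟨y1, f1, e1⟩ := hsq t ht
    obtain ⟨y2, f2, e2⟩ := hsq y1 f1
    obtain ⟨y3, f3, e3⟩ := hsq y2 f2
    obtain ⟨a, ha⟩ := hnorm y3 f3
    by_cases h0 : a = 0
    · have : t = 0 := by rw [← e1, ← e2, ← e3, ← ha, h0]; simp
      rw [this]; exact AddSubgroup.zero_mem _
    · obtain ⟨k, rfl⟩ := hg a h0
      refine AddSubgroup.subset_closure ⟨k, ?_⟩
      show (u ^ 4 * φ u ^ 4 * (u ^ 4 * φ u ^ 4)) ^ k = t
      rw [← e1, ← e2, ← e3, ← ha, map_pow]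
      ring
  · -- the span
    have hspan : ∀ y : K, ∃ s t : K, φ s = s ∧ φ t = t ∧ y = s + t * u := by
      intro y
      by_cases hne : φ u = u
      · have hall : ∀ x : K, φ x = x := by
          intro x
          by_cases hx : x = 0
          · rw [hx, map_zero]
          · obtain ⟨k, rfl⟩ := hg x hx
            rw [map_pow, hne]
        exact ⟨y, 0, hall y, map_zero φ, by ring⟩
      · have hd : u - φ u ≠ 0 := sub_ne_zero.2 (Ne.symm hne)
        have hd' : φ u - u ≠ 0 := sub_ne_zero.2 hne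
        refine ⟨y - (y - φ y) / (u - φ u) * u, (y - φ y) / (u - φ u), ?_, ?_, by ring⟩
        · rw [map_sub, map_mul, map_div₀, map_sub, map_sub, hφ, hφ]
          field_simp
          ring
        · rw [map_div₀, map_sub, map_sub, hφ, hφ]
          rw [div_eq_div_iff hd' hd]
          ring
    intro x
    obtain ⟨s, t, h1, h2, h3⟩ := hspan (x / (u ^ 6 * φ u ^ 6))
    have hn : u ^ 6 * φ u ^ 6 ≠ 0 := mul_ne_zero (pow_ne_zero _ hu) (pow_ne_zero _ hv)
    refine ⟨s / (u * φ u), t, ?_, h2, ?_⟩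
    · rw [map_div₀, map_mul, h1, hφ, mul_comm (φ u)]
    · rw [div_eq_iff hn] at h3
      rw [h3]
      field_simp

/-! ### the upper bound -/

theorem admTwo [Finite K] (hφ : ∀ x, φ (φ x) = x) (hK : (2 : K) = 0) {u : K} (hu : u ≠ 0)
    {lb : XL} {z s z' s' z0 s0 : Fin 6 → ℤ} {wb wc : List (Fin 6 → ℤ)}
    (h1 : Lo z ∧ Sh s ∧ ip B6 z s = 0) (h2 : Lo z' ∧ Sh s' ∧ ip B6 z' s' = 0)
    (h3 : Lo z0 ∧ Sh s0 ∧ ip B6 z0 s0 = 0)
    (hwb : (∀ r ∈ wb, ip B6 r r = 2) ∧ wv B6 ((ex wb).map (Prod.mk true)) z0 = -z ∧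
      wv B6 ((ex wb).map (Prod.mk true)) s0 = -s)
    (hwc : (∀ r ∈ wc, ip B6 r r = 2) ∧ wv B6 ((ex wc).map (Prod.mk true)) (-z') = -z ∧
      wv B6 ((ex wc).map (Prod.mk true)) (-s') = -s)
    (e1 : (XP u (φ u) lb : GLM B6 K) = XP u (φ u) ([(z, 0, 0), (s, 0, 0), (tau s, 0, 0)] ++
      [(z0, 1, 1), (s0, 1, 0), (tau s0, 0, 1)] ++ [(z, 0, 0), (s, 0, 0), (tau s, 0, 0)].reverse))
    (e2 : (XP u (φ u) (wm ((ex [z, s]).map (Prod.mk true)) lb) : GLM B6 K) = XP u (φ u) lb)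
    (e3 : (XP u (φ u) lb : GLM B6 K) = XP u (φ u) (wm ((ex [z, s]).map (Prod.mk true))
      [(z0, 1, 1), (s0, 1, 0), (tau s0, 0, 1)] ++ [(z0, 1, 1), (s0, 1, 0), (tau s0, 0, 1)]))
    (gen : ∀ L : Subgroup (GLM B6 K), NN good6t ((ex [z, s]).map (Prod.mk true)) ∈ L →
      XP u (φ u) lb ∈ L → NN good6t ((ex [z', s']).map (Prod.mk true)) ∈ L →
      TwistedGroup B6 φ ≤ L) :
    H47Inv.Admissible ↥(TwistedGroup B6 φ) 5 := by
  obtain ⟨lz, ss, o⟩ := h1
  obtain ⟨lz', ss', o'⟩ := h2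
  obtain ⟨lz0, ss0, o0⟩ := h3
  have hr : ∀ r ∈ [z, s], ip B6 r r = 2 := by
    intro r hr
    simp only [List.mem_cons, List.not_mem_nil, or_false] at hr
    rcases hr with rfl | rfl
    · exact lz.1
    · exact ss.1
  have hcf := ex_roots hr
  have ha := NNe_mem (K := K) hφ hr
  have hsm : ∀ {z s : Fin 6 → ℤ}, Lo z → Sh s → X good6t z 1 * Yt φ s 1 ∈ TwistedGroup B6 φ :=
    fun lz ss => Subgroup.mul_mem _ (X_tw lz.2 (map_one φ)) (Y_tw (Sh_ne ss) 1)
  have ea := mono_eq (φ := φ) hK lz ss o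
  have ec := mono_eq (φ := φ) hK lz' ss' o'
  have on : ip B6 (-z) (-s) = 0 := by rw [ip_neg_left, ip_neg_right, neg_neg, o]
  have ca : CjH (TwistedGroup B6 φ) (X good6t (-z) 1 * Yt φ (-s) 1)
      (NN good6t ((ex [z, s]).map (Prod.mk true))) := ⟨_, hsm lz ss, ea.symm⟩
  have cc : CjH (TwistedGroup B6 φ) (X good6t (-z') 1 * Yt φ (-s') 1)
      (NN good6t ((ex [z', s']).map (Prod.mk true))) := ⟨_, hsm lz' ss', ec.symm⟩
  have cc2 := word_conj (φ := φ) hφ hK hwc.1 hwc.2.1 hwc.2.2 1 1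
  have cb1 := word_conj (φ := φ) hφ hK hwb.1 hwb.2.1 hwb.2.2 1 1
  have cb2 := scale_conj hφ hK hu lz0 ss0 o0
  have eg : (XP u (φ u) [(z, 0, 0), (s, 0, 0), (tau s, 0, 0)] : GLM B6 K) =
      X good6t z 1 * Yt φ s 1 := by
    show X good6t z (u ^ 0 * φ u ^ 0) * (X good6t s (u ^ 0 * φ u ^ 0) *
      (X good6t (tau s) (u ^ 0 * φ u ^ 0) * 1)) = _
    unfold Yt
    rw [pow_zero, pow_zero, mul_one, mul_one, map_one]
  have em : (XP u (φ u) [(z0, 1, 1), (s0, 1, 0), (tau s0, 0, 1)] : GLM B6 K) =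
      X good6t z0 (u * φ u) * Yt φ s0 u := by
    show X good6t z0 (u ^ 1 * φ u ^ 1) * (X good6t s0 (u ^ 1 * φ u ^ 0) *
      (X good6t (tau s0) (u ^ 0 * φ u ^ 1) * 1)) = _
    unfold Yt
    rw [pow_zero, pow_zero, pow_one, pow_one, mul_one, mul_one, one_mul]
  have eb : (XP u (φ u) lb : GLM B6 K) = X good6t z 1 * Yt φ s 1 *
      (X good6t z0 (u * φ u) * Yt φ s0 u) * (X good6t z 1 * Yt φ s 1)⁻¹ := by
    rw [e1, XP_append, XP_append, XP_reverse hK, eg, em]
  have cb3 : CjH (TwistedGroup B6 φ) (X good6t z0 (u * φ u) * Yt φ s0 u) (XP u (φ u) lb) :=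
    ⟨_, hsm lz ss, eb.symm⟩
  have a2 : (NN good6t ((ex [z, s]).map (Prod.mk true)) *
      NN good6t ((ex [z, s]).map (Prod.mk true)) : GLM B6 K) = 1 := by
    rw [ea]
    have h := XY_two (φ := φ) hK (Lo_neg lz) (Sh_neg ss) on 1 1
    calc X good6t z 1 * Yt φ s 1 * (X good6t (-z) 1 * Yt φ (-s) 1) * (X good6t z 1 * Yt φ s 1)⁻¹ *
          (X good6t z 1 * Yt φ s 1 * (X good6t (-z) 1 * Yt φ (-s) 1) *
            (X good6t z 1 * Yt φ s 1)⁻¹)
        = X good6t z 1 * Yt φ s 1 * (X good6t (-z) 1 * Yt φ (-s) 1 *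
            (X good6t (-z) 1 * Yt φ (-s) 1)) * (X good6t z 1 * Yt φ s 1)⁻¹ := by group
      _ = 1 := by rw [h]; group
  have ab : (NN good6t ((ex [z, s]).map (Prod.mk true)) * XP u (φ u) lb : GLM B6 K) =
      XP u (φ u) lb * NN good6t ((ex [z, s]).map (Prod.mk true)) := by
    rw [NN_XP hK u (φ u) hcf.1, e2]
  have cab : CjH (TwistedGroup B6 φ) (NN good6t ((ex [z, s]).map (Prod.mk true)))
      (NN good6t ((ex [z, s]).map (Prod.mk true)) * XP u (φ u) lb) := by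
    have hM := XY_two (φ := φ) hK lz0 ss0 o0 (u * φ u) u
    have fN : φ (u * φ u) = u * φ u := by rw [map_mul, hφ, mul_comm]
    refine ⟨X good6t z0 (u * φ u) * Yt φ s0 u,
      Subgroup.mul_mem _ (X_tw lz0.2 fN) (Y_tw (Sh_ne ss0) u), ?_⟩
    have h4 := NN_XP (K := K) hK u (φ u) hcf.1 [(z0, 1, 1), (s0, 1, 0), (tau s0, 0, 1)]
    rw [em] at h4
    rw [e3, XP_append, em, inv_eq_of_mul_eq_one_left hM]
    generalize (X good6t z0 (u * φ u) * Yt φ s0 u : GLM B6 K) = M at *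
    generalize (NN good6t ((ex [z, s]).map (Prod.mk true)) : GLM B6 K) = a at *
    have h5 : (XP u (φ u) (wm ((ex [z, s]).map (Prod.mk true))
        [(z0, 1, 1), (s0, 1, 0), (tau s0, 0, 1)]) : GLM B6 K) = a * M * a⁻¹ := by
      rw [h4]; group
    rw [h5, inv_eq_of_mul_eq_one_left a2]
    calc M * a * M = (a * a) * M * a * M := by rw [a2, one_mul]
      _ = a * (a * M * a * M) := by simp only [mul_assoc]
  exact asmT ha a2 ab (ca.symm.trans (cb1.symm.trans (cb2.trans cb3))) cab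
    (ca.symm.trans (cc2.symm.trans cc)) gen

end H41Chev
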