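import Mathlib
import Pool.Agent.H.MP_0335f8_al.helper41t.TTwoC

/-!
# The certificate for the twisted groups, characteristic two
-/

namespace H41Chev.Ttwo

variable {K : Type*} [Field K] {φ : K ≃+* K}

/-- the second involution -/
def lb : XL := [(![1, 0, 0, 0, 0, 0], 0, 1), (![0, 1, 0, 0, 0, 0], 1, 0), (![1, 1, 2, 2, 3, 1], 1, 1), (![1, 0, 1, 0, 0, 0], 0, 1), (![0, 1, 0, 1, 0, 0], 1, 0), (![1, 1, 2, 2, 3, 2], 1, 1)]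

/-- the two roots and their images -/
def wa : Wd 6 := (ex [![0, 0, 0, 0, 0, 1], ![0, 0, 0, 1, 0, 0]]).map (Prod.mk true)

/-- the two roots and their images -/
def wc : Wd 6 := (ex [![0, 0, 1, 1, 1, 0], ![0, 1, 1, 1, 2, 1]]).map (Prod.mk true)

theorem cfa : Cf wa := by decide +kernel

theorem cfc : Cf wc := by decide +kernel

theorem oka : wok B6 wa := cfa.1

theorem okc : wok B6 wc := cfc.1

/-- the three elements generate -/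
theorem gen (hφ : ∀ x, φ (φ x) = x) (hK : (2 : K) = 0) {u : K} (hu : u ≠ 0)
    (hs1 : ∀ t, φ t = t →
      t ∈ AddSubgroup.closure (Set.range fun i : ℕ => (u ^ 4 * φ u ^ 4 * (u ^ 4 * φ u ^ 4)) ^ i))
    (hs2 : ∀ x : K, ∃ s t : K, φ s = s ∧ φ t = t ∧
      x = s * (u ^ 7 * φ u ^ 7) + t * (u ^ 7 * φ u ^ 6))
    (L : Subgroup (GLM B6 K)) (ha : NN good6t wa ∈ L) (hb : XP u (φ u) lb ∈ L)
    (hc : NN good6t wc ∈ L) : TwistedGroup B6 φ ≤ L := by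
  have hv : φ u ≠ 0 := fun h => hu (by rw [← hφ u, h, map_zero])
  have n0 : u ^ 4 * φ u ^ 4 ≠ 0 := mul_ne_zero (pow_ne_zero _ hu) (pow_ne_zero _ hv)
  have m10 : u ^ 7 * φ u ^ 7 ≠ 0 := mul_ne_zero (pow_ne_zero _ hu) (pow_ne_zero _ hv)
  have m20 : u ^ 7 * φ u ^ 6 ≠ 0 := mul_ne_zero (pow_ne_zero _ hu) (pow_ne_zero _ hv)
  have m30 : φ (u ^ 7 * φ u ^ 6) ≠ 0 := fun h => m20 (by rw [← hφ (u ^ 7 * φ u ^ 6), h, map_zero])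
  have fn : φ (u ^ 4 * φ u ^ 4) = u ^ 4 * φ u ^ 4 := by
    rw [map_mul, map_pow, map_pow, hφ, mul_comm]
  have fm1 : φ (u ^ 7 * φ u ^ 7) = u ^ 7 * φ u ^ 7 := by
    rw [map_mul, map_pow, map_pow, hφ, mul_comm]
  have hs3 : ∀ x : K, ∃ s t : K, φ s = s ∧ φ t = t ∧
      x = s * (u ^ 7 * φ u ^ 7) + t * φ (u ^ 7 * φ u ^ 6) := by
    intro x
    obtain ⟨s, t, h1, h2, h3⟩ := hs2 (φ x)
    refine ⟨s, t, h1, h2, ?_⟩
    rw [← hφ x, h3, map_add, map_mul φ s, map_mul φ t, h1, h2, fm1]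
  have t1 : TP L u (φ u) [(![0, 1, 1, 1, 1, 0], 0, 1), (![1, 0, 1, 1, 1, 0], 1, 0), (![0, 0, -1, -1, -2, -1], 1, 1), (![1, 1, 2, 1, 2, 1], 0, 1), (![1, 1, 1, 2, 2, 1], 1, 0), (![0, 0, 0, 0, -1, 0], 1, 1)] :=
    TP_conj hK okc hc hb (by decide +kernel)
  have t2 : TP L u (φ u) [(![0, 1, 0, 1, 1, 1], 0, 1), (![1, 0, 1, 0, 1, 1], 1, 0), (![0, 0, -1, -1, -2, -1], 1, 1), (![1, 1, 1, 2, 2, 1], 0, 1), (![1, 1, 2, 1, 2, 1], 1, 0), (![0, 0, -1, -1, -1, -1], 1, 1)] :=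
    TP_conj hK oka ha t1 (by decide +kernel)
  have t3 : TP L u (φ u) [(![0, 0, 0, 1, 0, 0], 0, 1), (![0, 0, 1, 0, 0, 0], 1, 0), (![1, 1, 2, 2, 3, 1], 1, 1), (![0, 1, 0, 1, 0, 0], 0, 1), (![1, 0, 1, 0, 0, 0], 1, 0), (![0, 0, 0, 0, 0, -1], 1, 1)] :=
    TP_conj hK okc hc t2 (by decide +kernel)
  have t4 : TP L u (φ u) [(![1, 0, 1, 0, 0, 0], 1, 1), (![0, 1, 0, 1, 0, 0], 1, 1), (![1, 1, 2, 2, 3, 1], 2, 2)] :=
    TP_com hK hb t3 [(2, 0), (3, 0), (4, 0), (3, 0), (2, 0), (5, 0), (4, 0), (3, 0), (2, 0), (6, 0), (5, 0), (4, 0), (3, 0), (2, 0), (7, 2), (6, 0), (7, 0), (6, 0), (8, 0), (7, 0), (6, 0), (5, 0), (4, 1), (4, 0), (3, 0), (2, 0), (1, 0), (0, 0), (5, 0), (6, 0), (7, 0), (8, 0), (9, 0), (10, 0), (9, 0), (8, 0), (7, 0), (6, 0), (5, 2), (9, 0), (8, 2), (8, 0), (7, 0), (6, 0), (5, 2), (7, 0), (8, 0), (7, 0), (6, 0), (5, 0), (4,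 1), (4, 0), (3, 0), (2, 2), (3, 0), (4, 0), (5, 0), (8, 0), (7, 0), (6, 0), (5, 0), (4, 0), (3, 0), (2, 1), (2, 0), (1, 2), (1, 0), (2, 0), (3, 0), (8, 0), (7, 0), (6, 0), (5, 0), (4, 0), (3, 0), (2, 0), (1, 0), (0, 2), (7, 0), (6, 0), (5, 0), (4, 0), (3, 0), (2, 2), (6, 0), (5, 0), (4, 0), (3, 2), (5, 0), (4, 2), (4, 0), (3, 0), (2, 0), (1, 0), (0, 2), (3, 0), (2, 0), (1, 0), (0, 2)] (by decide +kernel)
  have t5 : TP L u (φ u) [(![1, 1, 2, 1, 2, 1], 1, 1), (![1, 1, 1, 2, 2, 1], 1, 1), (![0, 0, -1, -1, -2, -1], 2, 2)] :=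
    TP_conj hK okc hc t4 (by decide +kernel)
  have t6 : TP L u (φ u) [(![1, 1, 1, 1, 1, 0], 4, 4)] :=
    TP_com hK t4 t5 [(1, 0), (0, 0), (4, 0), (3, 0), (2, 0), (1, 0), (0, 1), (0, 0), (1, 0), (2, 0), (3, 0), (4, 0), (5, 0), (6, 0), (5, 0), (4, 0), (3, 0), (2, 0), (1, 2), (5, 0), (4, 0), (3, 0), (2, 2), (4, 0), (3, 0), (2, 0), (1, 2), (3, 0), (2, 0), (1, 0), (0, 2), (2, 0), (1, 2), (1, 0), (0, 2)] (by decide +kernel)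
  have t7 : TP L u (φ u) [(![1, 0, 0, 0, 0, 0], 1, 1), (![0, 1, 0, 0, 0, 0], 1, 1), (![1, 1, 2, 2, 3, 2], 2, 2)] :=
    TP_conj hK oka ha t4 (by decide +kernel)
  have t8 : TP L u (φ u) [(![0, 1, 1, 1, 1, 0], 1, 1), (![1, 0, 1, 1, 1, 0], 1, 1), (![0, 0, 0, 0, -1, 0], 2, 2)] :=
    TP_conj hK okc hc t7 (by decide +kernel)
  have t9 : TP L u (φ u) [(![0, 1, 0, 1, 1, 1], 1, 1), (![1, 0, 1, 0, 1, 1], 1, 1), (![0, 0, -1, -1, -1, -1], 2, 2)] :=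
    TP_conj hK oka ha t8 (by decide +kernel)
  have t10 : TP L u (φ u) [(![0, 0, 0, 1, 0, 0], 1, 1), (![0, 0, 1, 0, 0, 0], 1, 1), (![0, 0, 0, 0, 0, -1], 2, 2)] :=
    TP_conj hK okc hc t9 (by decide +kernel)
  have t11 : TP L u (φ u) [(![0, 0, 0, -1, 0, 0], 1, 1), (![0, 0, -1, 0, 0, 0], 1, 1), (![0, 0, 0, 0, 0, 1], 2, 2)] :=
    TP_conj hK oka ha t10 (by decide +kernel)
  have t12 : TP L u (φ u) [(![1, 0, 0, 0, 0, 0], 2, 2), (![0, 1, 0, 0, 0, 0], 2, 2), (![1, 1, 2, 2, 3, 2], 4, 4)] :=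
    TP_com hK t4 t11 [(2, 0), (1, 1), (1, 0), (0, 0), (2, 0), (3, 0), (4, 0), (3, 0), (2, 0), (1, 1), (1, 0), (2, 0), (3, 0), (4, 0), (6, 0), (5, 0), (4, 1), (4, 0), (5, 0), (6, 0), (7, 0), (8, 0), (7, 0), (6, 0), (5, 2), (7, 0), (6, 0), (5, 0), (4, 0), (3, 2), (6, 0), (5, 0), (4, 0), (3, 0), (2, 2), (5, 0), (4, 0), (3, 0), (2, 2), (4, 0), (3, 0), (2, 0), (1, 2), (3, 0), (2, 0), (1, 0), (0, 2)] (by decide +kernel)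
  have t13 : TP L u (φ u) [(![1, 1, 1, 1, 1, 1], 4, 4)] :=
    TP_conj hK oka ha t6 (by decide +kernel)
  have t14 : TP L u (φ u) [(![1, 1, 2, 2, 2, 1], 4, 4)] :=
    TP_conj hK okc hc t13 (by decide +kernel)
  have t15 : TP L u (φ u) [(![1, 1, 1, 1, 2, 1], 4, 4)] :=
    TP_conj hK oka ha t14 (by decide +kernel)
  have t16 : TP L u (φ u) [(![0, 0, 0, 0, -1, -1], 4, 4)] :=
    TP_conj hK okc hc t15 (by decide +kernel)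
  have t17 : TP L u (φ u) [(![0, 0, -1, -1, -1, 0], 4, 4)] :=
    TP_conj hK oka ha t16 (by decide +kernel)
  have t18 : TP L u (φ u) [(![0, 0, 1, 1, 1, 0], 4, 4)] :=
    TP_conj hK okc hc t17 (by decide +kernel)
  have t19 : TP L u (φ u) [(![1, 0, 1, 1, 1, 0], 6, 6), (![0, 1, 1, 1, 1, 0], 6, 6), (![1, 1, 1, 1, 1, 0], 8, 8)] :=
    TP_com hK t12 t18 [(2, 0), (3, 2), (2, 1), (2, 0), (1, 2), (1, 0), (2, 1), (2, 0), (1, 1), (1, 0), (0, 2), (0, 0), (2, 0), (3, 0), (2, 0), (1, 0), (0, 2)] (by decide +kernel)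
  have t20 : TP L u (φ u) [(![1, 1, 2, 1, 2, 1], 7, 6), (![1, 1, 1, 2, 2, 1], 6, 7)] :=
    TP_com hK t19 t2 [(2, 0), (1, 0), (0, 1), (0, 0), (1, 0), (2, 0), (4, 0), (3, 0), (2, 1), (2, 0), (1, 0), (0, 0), (3, 0), (6, 0), (5, 0), (4, 0), (7, 0), (6, 0), (8, 0), (7, 0), (6, 0), (5, 0), (9, 0), (8, 0), (7, 0), (6, 0), (5, 0), (10, 2), (9, 0), (8, 0), (7, 0), (6, 0), (5, 0), (4, 0), (3, 2), (8, 0), (7, 0), (6, 0), (5, 0), (4, 0), (3, 0), (2, 2), (7, 0), (6, 0), (5, 0), (4, 0), (3, 2), (6, 0), (5, 0), (4, 0), (3, 2), (5, 0), (4, 2), (4, 0), (3, 0), (2, 2), (3, 0), (2, 0), (1, 0), (0, 2), (2, 0), (1, 0), (0, 2)] (by decide +kernel)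
  have t21 : TP L u (φ u) [(![1, 1, 2, 1, 2, 1], 7, 7), (![1, 1, 1, 2, 2, 1], 7, 7)] :=
    TP_com hK t19 t9 [(2, 0), (1, 0), (0, 1), (0, 0), (1, 0), (2, 0), (4, 0), (3, 0), (2, 1), (2, 0), (1, 0), (0, 0), (3, 0), (6, 0), (5, 0), (4, 0), (7, 2), (6, 0), (5, 0), (4, 0), (3, 2), (5, 0), (4, 0), (3, 0), (2, 2), (4, 0), (3, 0), (2, 2), (3, 0), (2, 0), (1, 0), (0, 2), (2, 0), (1, 0), (0, 2)] (by decide +kernel)
  have f0 : LL L ![1, 1, 1, 1, 1, 0] (u ^ 4 * φ u ^ 4) :=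
    LL_of_TP t6
  have f1 : LL L ![1, 1, 1, 1, 1, 1] (u ^ 4 * φ u ^ 4) :=
    LL_conj cfa ha f0 (by decide +kernel)
  have f2 : LL L ![1, 1, 2, 2, 2, 1] (u ^ 4 * φ u ^ 4) :=
    LL_conj cfc hc f1 (by decide +kernel)
  have f3 : LL L ![1, 1, 1, 1, 2, 1] (u ^ 4 * φ u ^ 4) :=
    LL_conj cfa ha f2 (by decide +kernel)
  have f4 : LL L ![0, 0, 0, 0, -1, -1] (u ^ 4 * φ u ^ 4) :=
    LL_conj cfc hc f3 (by decide +kernel)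
  have f5 : LL L ![0, 0, -1, -1, -1, 0] (u ^ 4 * φ u ^ 4) :=
    LL_conj cfa ha f4 (by decide +kernel)
  have f6 : LL L ![0, 0, 1, 1, 1, 0] (u ^ 4 * φ u ^ 4) :=
    LL_conj cfc hc f5 (by decide +kernel)
  have f7 : LL L ![0, 0, 0, 0, 1, 1] (u ^ 4 * φ u ^ 4) :=
    LL_conj cfa ha f6 (by decide +kernel)
  have f8 : FL φ L ![0, 0, -1, -1, -1, 0] :=
    FL_loop n0 fn hs1 f5 f4 f7 (by decide +kernel)
  have f9 : FL φ L ![1, 1, 1, 1, 1, 0] :=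
    FL_loop n0 fn hs1 f0 f7 f4 (by decide +kernel)
  have f10 : SS φ L ![1, 1, 2, 1, 2, 1] (u ^ 7 * φ u ^ 7) :=
    SS_of_TP t21 hφ (by decide +kernel)
  have f11 : SS φ L ![1, 0, 1, 0, 0, 0] (u ^ 7 * φ u ^ 7) :=
    SS_conj cfc hc f10 (by decide +kernel)
  have f12 : SS φ L ![1, 0, 0, 0, 0, 0] (u ^ 7 * φ u ^ 7) :=
    SS_conj cfa ha f11 (by decide +kernel)
  have f13 : SS φ L ![0, 1, 1, 1, 1, 0] (u ^ 7 * φ u ^ 7) :=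
    SS_conj cfc hc f12 (by decide +kernel)
  have f14 : KS φ L ![0, 1, 0, 0, 0, 0] (u ^ 7 * φ u ^ 7) :=
    KS_rule hφ f8 f9 f13 (by decide +kernel)
  have f15 : SS φ L ![1, 1, 2, 1, 2, 1] (u ^ 7 * φ u ^ 6) :=
    SS_of_TP t20 hφ (by decide +kernel)
  have f16 : SS φ L ![1, 0, 1, 0, 0, 0] (u ^ 7 * φ u ^ 6) :=
    SS_conj cfc hc f15 (by decide +kernel)
  have f17 : SS φ L ![1, 0, 0, 0, 0, 0] (u ^ 7 * φ u ^ 6) :=
    SS_conj cfa ha f16 (by decide +kernel)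
  have f18 : SS φ L ![0, 1, 1, 1, 1, 0] (u ^ 7 * φ u ^ 6) :=
    SS_conj cfc hc f17 (by decide +kernel)
  have f19 : KS φ L ![0, 1, 0, 0, 0, 0] (u ^ 7 * φ u ^ 6) :=
    KS_rule hφ f8 f9 f18 (by decide +kernel)
  have f20 : FS φ L ![0, 1, 0, 0, 0, 0] :=
    FS_of_KS f14 f19 hs2 (by decide +kernel)
  have f21 : FS φ L ![1, 0, 0, 0, 0, 0] :=
    FS_flip' hφ f20 (by decide +kernel)
  have f22 : FL φ L ![0, 0, 1, 1, 1, 0] :=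
    FL_loop n0 fn hs1 f6 f7 f4 (by decide +kernel)
  have f23 : KS φ L ![1, 0, 1, 1, 1, 0] (u ^ 7 * φ u ^ 7) :=
    KS_rule hφ f22 f9 f12 (by decide +kernel)
  have f24 : KS φ L ![1, 0, 1, 1, 1, 0] (u ^ 7 * φ u ^ 6) :=
    KS_rule hφ f22 f9 f17 (by decide +kernel)
  have f25 : FS φ L ![1, 0, 1, 1, 1, 0] :=
    FS_of_KS f23 f24 hs2 (by decide +kernel)
  have f26 : FS φ L ![1, 0, 1, 0, 1, 1] :=
    FS_conj cfa ha f25 (by decide +kernel)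
  have f27 : FS φ L ![0, 0, 1, 0, 0, 0] :=
    FS_conj cfc hc f26 (by decide +kernel)
  have f28 : FS φ L ![0, 0, -1, 0, 0, 0] :=
    FS_conj cfa ha f27 (by decide +kernel)
  have f29 : FS φ L ![-1, 0, -1, 0, -1, -1] :=
    FS_conj cfc hc f28 (by decide +kernel)
  have f30 : FS φ L ![-1, 0, -1, -1, -1, 0] :=
    FS_conj cfa ha f29 (by decide +kernel)
  have f31 : FS φ L ![0, -1, -1, -1, -1, 0] :=
    FS_flip' hφ f30 (by decide +kernel)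
  have f32 : FS φ L ![-1, 0, 0, 0, 0, 0] :=
    FS_conj cfc hc f31 (by decide +kernel)
  have f33 : FL φ L ![1, 1, 1, 1, 2, 1] :=
    FL_loop n0 fn hs1 f3 f6 f5 (by decide +kernel)
  have f34 : LL L ![-1, -1, -1, -1, -2, -1] (u ^ 4 * φ u ^ 4) :=
    LL_conj cfc hc f7 (by decide +kernel)
  have f35 : LL L ![-1, -1, -2, -2, -2, -1] (u ^ 4 * φ u ^ 4) :=
    LL_conj cfa ha f34 (by decide +kernel)
  have f36 : LL L ![-1, -1, -1, -1, -1, -1] (u ^ 4 * φ u ^ 4) :=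
    LL_conj cfc hc f35 (by decide +kernel)
  have f37 : FL φ L ![0, 0, 0, 0, 1, 0] :=
    FL_sum' n0 fn f33 f36 (by decide +kernel)
  have f38 : FL φ L ![1, 1, 1, 1, 1, 1] :=
    FL_loop n0 fn hs1 f1 f6 f5 (by decide +kernel)
  have f39 : FL φ L ![0, 0, 0, 0, -1, 0] :=
    FL_sum' n0 fn f38 f34 (by decide +kernel)
  have f40 : FL φ L ![0, 0, 0, 0, 0, -1] :=
    FL_sum' n0 fn f9 f36 (by decide +kernel)
  have f41 : FL φ L ![0, 0, 0, 0, 0, 1] :=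
    FL_conj cfa ha f40 (by decide +kernel)
  exact gen_tw4 hφ f21 f32 f27 f28 f37 f39 f41 f40

/-- the upper bound in characteristic two -/
theorem adm [Finite K] (hφ : ∀ x, φ (φ x) = x) (hK : (2 : K) = 0) :
    H47Inv.Admissible ↥(TwistedGroup B6 φ) 5 := by
  obtain ⟨u, hu, hg⟩ := exists_gen K
  have hf := field_two hφ hK hu hg
  refine admTwo hφ hK hu (lb := lb) (z := ![0, 0, 0, 0, 0, 1]) (s := ![0, 0, 0, 1, 0, 0]) (z' := ![0, 0, 1, 1, 1, 0]) (s' := ![0, 1, 1, 1, 2, 1])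
    (z0 := ![1, 1, 2, 2, 3, 1]) (s0 := ![0, 1, 0, 0, 0, 0]) (wb := [![1, 1, 2, 2, 3, 2], ![0, 1, 0, 1, 0, 0]]) (wc := [![0, 1, 0, 1, 1, 0], ![0, 0, 0, 0, 1, 1], ![0, 1, 0, 0, 0, 0]])
    (by decide +kernel) (by decide +kernel) (by decide +kernel) (by decide +kernel)
    (by decide +kernel)
    (XP_eq hK u (φ u) [] [(0, 0), (1, 0), (0, 0), (3, 0), (2, 0), (1, 1), (1, 0), (0, 0), (2, 0), (3, 0), (4, 0), (5, 0), (4, 0), (3, 0), (2, 0), (1, 1), (1, 0), (0, 0), (2, 0), (3, 0), (4, 0), (5, 0), (7, 0), (6, 0), (5, 0), (4, 0), (3, 0), (2, 2), (6, 0), (5, 0), (4, 0), (3, 0), (2, 2), (5, 0), (4, 0), (3, 1), (3, 0), (2, 2), (2, 0), (3, 0), (4, 0)] (by decide +kernel))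
    (XP_eq hK u (φ u) [(2, 0), (1, 0), (0, 0), (3, 0), (2, 0), (1, 0), (4, 0), (3, 0), (2, 0)] [] (by decide +kernel))
    (XP_eq hK u (φ u) [] [(0, 0), (1, 0), (0, 0), (2, 0), (1, 0), (0, 0), (3, 0), (2, 0), (1, 0), (0, 0), (4, 0), (3, 0), (2, 0), (1, 0), (0, 0)] (by decide +kernel))
    (gen hφ hK hu hf.1 hf.2)

end H41Chev.Ttwo
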